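import Mathlib
import Pool.Agent.X99.CK.Short

/-!
# MP_03e5d0_nt: for almost all the curves of a family of twists the law of the Selmer rank, and so the
# lower bound for the number of the twists of analytic rank zero, holds from a bounded height on
-/

set_option autoImplicit false
set_option linter.unusedSectionVars false
set_option linter.style.haveILetI false

open Filter

namespace Pool.Agent.Results.MP_03e5d0_nt.AlmostEveryCurveShortRange

/-- the odd squarefree sums of two squares -/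
def 𝒟 : Set ℕ := {D : ℕ | Squarefree D ∧ Odd D ∧ ∃ x y : ℕ, D = x ^ 2 + y ^ 2}

/-- the squarefree part of `m D` for squarefree `m`, `D` -/
def tw (m D : ℕ) : ℕ := m * D / (Nat.gcd m D) ^ 2

/-- the twist `y² = x³ - 35 D² x - 98 D³` by `D` of `X_0(49)` -/
def E (D : ℤ) : WeierstrassCurve ℚ :=
  { a₁ := 0, a₂ := 0, a₃ := 0, a₄ := ((-35 * D ^ 2 : ℤ) : ℚ), a₆ := ((-98 * D ^ 3 : ℤ) : ℚ) }

/-- the L-function of `y² = x³ + a x + b`, without the Euler factors at the primes which divide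
`2 (4 a³ + 27 b²)`, is entire and does not vanish at `1` -/
def LNonzero (a b : ℤ) : Prop :=
  ∃ F : ℂ → ℂ, Differentiable ℂ F ∧
    (∀ s : ℂ, (3 : ℝ) / 2 < s.re →
      HasProd
        (fun p : ℕ => open Classical in
          if p.Prime ∧ ¬ ((p : ℤ) ∣ 2 * (-4 * a ^ 3 - 27 * b ^ 2)) then
            (1 - ((p : ℂ) - (Nat.card {q : ZMod p × ZMod p //
                q.2 ^ 2 = q.1 ^ 3 + (a : ZMod p) * q.1 + (b : ZMod p)} : ℂ))
                * (p : ℂ) ^ (-s) + (p : ℂ) ^ (1 - 2 * s))⁻¹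
          else 1)
        (F s)) ∧ F 1 ≠ 0

/-- the analytic rank of `E_D` is `0` -/
def AnRankZero (D : ℤ) : Prop := LNonzero (-35 * D ^ 2) (-98 * D ^ 3)

/-- `N² = b₁ M⁴ + a M² e² + (b/b₁) e⁴` has a solution with `(M, e) ≠ (0, 0)` in `K` -/
def Solv (K : Type) [Field K] (a b b₁ : ℤ) : Prop :=
  ∃ N M e : K, (M ≠ 0 ∨ e ≠ 0) ∧
    N ^ 2 = (b₁ : K) * M ^ 4 + (a : K) * M ^ 2 * e ^ 2 + ((b / b₁ : ℤ) : K) * e ^ 4

/-- the squarefree `b₁ ∣ b` for which this quartic is everywhere locally solvable: the classes of the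
Selmer group of the isogeny dual to `(x, y) ↦ (x + a + b/x, y (1 - b/x²))` of `y² = x³ + a x² + b x` -/
def F (a b : ℤ) : Set ℤ :=
  {b₁ : ℤ | Squarefree b₁ ∧ b₁ ∣ b ∧ Solv ℝ a b b₁ ∧ ∀ (p : ℕ) [Fact p.Prime], Solv ℚ_[p] a b b₁}

/-- both 2-isogeny Selmer groups of `E_D`, with the equation `y² = x³ + 21 D x² + 112 D² x`, have order
`2 ^ (k + 1)` -/
def SelmerRank (D : ℤ) (k : ℕ) : Prop :=
  (F (21 * D) (112 * D ^ 2)).ncard = 2 ^ (k + 1) ∧
    (F (-2 * (21 * D)) ((21 * D) ^ 2 - 4 * (112 * D ^ 2))).ncard = 2 ^ (k + 1)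

/-- the limit probabilities `c / ∏_{i ≤ k} (2^i - 1)` -/
noncomputable def prob (k : ℕ) : ℝ :=
  (∏' i : ℕ, (1 - (1 / 2 : ℝ) ^ (2 * i + 1))) / ∏ i ∈ Finset.Icc 1 k, ((2 : ℝ) ^ i - 1)

/-- the share of the `m ≤ M` in `𝒟` which are in `S` -/
noncomputable def share (S : Set ℕ) (M : ℕ) : ℝ :=
  ({m : ℕ | m ∈ 𝒟 ∧ m ≤ M ∧ m ∈ S}.ncard : ℝ) / ({m : ℕ | m ∈ 𝒟 ∧ m ≤ M}.ncard : ℝ)

/-- `D` is typical for `ε` and for the heights between `M₀` and `M₁`: the twists of `E_D` by the `m ≤ M`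
in `𝒟` follow the law of the Selmer rank up to `ε`, a share `≥ c - ε` of them has analytic rank `0`
and finitely many rational points, and a share `≥ ∑_{i ≤ k} prob i - ε` of them has rank `≤ 2 k` -/
def Typical (ε : ℝ) (M₀ M₁ D : ℕ) : Prop :=
  ∀ M : ℕ, M₀ ≤ M → M ≤ M₁ →
    (∀ A : Set ℕ, |share {m | ∃ k ∈ A, SelmerRank (tw m D) k} M - ∑' k, A.indicator prob k| ≤ ε) ∧
    prob 0 - ε ≤ share {m | AnRankZero (tw m D) ∧ Finite (E (tw m D)).toAffine.Point} M ∧
    ∀ k : ℕ, ∑ i ∈ Finset.range (k + 1), prob i - ε ≤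
      share {m | Module.finrank ℤ (E (tw m D)).toAffine.Point ≤ 2 * k} M

open Pool.Agent.X99.CK Pool.Agent.X99.C49

theorem cf_prod (k : ℕ) : Pool.Agent.Y697.PQ.cf k = 1 / ∏ i ∈ Finset.Icc 1 k, ((2 : ℝ) ^ i - 1) := by
  induction k with
  | zero => simp [Pool.Agent.Y697.PQ.cf]
  | succ k ih =>
    rw [Finset.prod_Icc_succ_top (by omega), Pool.Agent.Y697.PQ.cf, ih, div_div]

theorem prob_eq (k : ℕ) : prob k = pr k := by
  unfold prob pr
  rw [cf_prod, Pool.Agent.Y697.CJ.gi_eq, mul_one_div]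
  rfl

theorem mem_𝒟 {D : ℕ} : D ∈ 𝒟 ↔ Fam D := fam_two D

theorem set_eq (S : Set ℕ) (M : ℕ) : ∃ d : DecidablePred fun m => m ∈ S,
    {m : ℕ | m ∈ 𝒟 ∧ m ≤ M ∧ m ∈ S}.ncard = (@Finset.filter ℕ (fun m => m ∈ S) d (fM M)).card ∧
    {m : ℕ | m ∈ 𝒟 ∧ m ≤ M}.ncard = (fM M).card := by
  classical
  refine ⟨fun _ => Classical.propDecidable _, ?_, ?_⟩
  · rw [← Set.ncard_coe_finset]
    congr 1
    ext D
    unfold fM
    rw [Finset.mem_coe, Finset.mem_filter, Finset.mem_filter, Finset.mem_Icc]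
    constructor
    · rintro ⟨h1, h2, h3⟩
      exact ⟨⟨⟨Nat.pos_of_ne_zero (mem_𝒟.1 h1).1.ne_zero, h2⟩, mem_𝒟.1 h1⟩, h3⟩
    · rintro ⟨⟨⟨-, h2⟩, h1⟩, h3⟩
      exact ⟨mem_𝒟.2 h1, h2, h3⟩
  · rw [← Set.ncard_coe_finset]
    congr 1
    ext D
    unfold fM
    rw [Finset.mem_coe, Finset.mem_filter, Finset.mem_Icc]
    constructor
    · rintro ⟨h1, h2⟩
      exact ⟨⟨Nat.pos_of_ne_zero (mem_𝒟.1 h1).1.ne_zero, h2⟩, mem_𝒟.1 h1⟩
    · rintro ⟨⟨-, h2⟩, h1⟩
      exact ⟨mem_𝒟.2 h1, h2⟩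

theorem share_eq {S A : Set ℕ} {D M : ℕ}
    (h : ∀ m, Fam m → (m ∈ S ↔ kk (Pool.Agent.X99.GJ.star m D) ∈ A)) :
    share S M = shr A D M := by
  classical
  obtain ⟨d, h1, h2⟩ := set_eq S M
  unfold share shr
  rw [h1, h2]
  congr 2
  refine Pool.Agent.X99.GJ.fc _ fun m hm => h m ?_
  unfold fM at hm
  exact (Finset.mem_filter.1 hm).2

theorem share_mono {S T : Set ℕ} (h : ∀ m, m ∈ 𝒟 → m ∈ S → m ∈ T) (M : ℕ) :
    share S M ≤ share T M := by
  unfold share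
  refine div_le_div_of_nonneg_right (Nat.cast_le.2 (Set.ncard_le_ncard ?_ ?_)) (Nat.cast_nonneg _)
  · rintro m ⟨h1, h2, h3⟩
    exact ⟨h1, h2, h m h1 h3⟩
  · exact (Set.finite_Iic M).subset fun m hm => hm.2.1

theorem selmer_iff {D : ℕ} (h : Fam D) (k : ℕ) : SelmerRank D k ↔ kk D = k := by
  obtain ⟨h1, h2⟩ := sel_card h
  rw [nK_kk, ← pow_succ'] at h1 h2
  have e1 : -2 * (21 * (D : ℤ)) = -42 * (D : ℤ) := by ring
  have e2 : (21 * (D : ℤ)) ^ 2 - 4 * (112 * (D : ℤ) ^ 2) = -7 * (D : ℤ) ^ 2 := by ring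
  unfold SelmerRank
  rw [e1, e2]
  constructor
  · rintro ⟨h3, -⟩
    have h4 : 2 ^ (kk D + 1) = 2 ^ (k + 1) := h1.symm.trans h3
    have := Nat.pow_right_injective le_rfl h4
    omega
  · rintro rfl
    exact ⟨h1, h2⟩

/-- the two equations -/
theorem rank_E {D : ℕ} (h : Fam D) : Module.finrank ℤ (E D).toAffine.Point ≤ 2 * kk D := by
  have hM0 : (D : ℤ) ≠ 0 := by exact_mod_cast h.1.ne_zero
  have e : (ES (D : ℤ)).toAffine.Point ≃+ (Pool.Agent.Y668.Wt ((21 * (D : ℤ) : ℤ) : ℚ)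
      ((112 * (D : ℤ) ^ 2 : ℤ) : ℚ)).toAffine.Point := (vrS (D : ℤ)).equiv (disS hM0)
  have h1 := e.toIntLinearEquiv.finrank_eq
  have h2 := rank_kk h
  have h3 : Module.finrank ℤ (E D).toAffine.Point =
      Module.finrank ℤ (ES (D : ℤ)).toAffine.Point := rfl
  rw [h3, h1]
  exact h2

theorem an_zero {D : ℕ} (h : Fam D) (h0 : kk D = 0) :
    AnRankZero D ∧ Finite (E D).toAffine.Point := by
  have hg := (kk_zero D).1 h0
  have hfin := ((crit h).2 hg).1
  obtain ⟨F, h1, h2, h3, h4⟩ := bsd h hg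
  exact ⟨⟨F, h1, h2, (h1.analyticAt 1).analyticOrderAt_eq_zero.1 h3⟩, hfin⟩

/-- **Goldfeld's problem in short ranges.** For `D ∈ 𝒟` (odd squarefree sums of two squares) let `E_D`
be the twist of `X_0(49)` by `D`.
(1) For `m, D ∈ 𝒟` the squarefree part `tw m D` of `m D` is in `𝒟`, so `E_{tw m D}` is the twist of
`E_D` by `m`; both 2-isogeny Selmer groups of `E_D` have the same order `2 ^ (k + 1)`, and then the
rank is at most `2 k`; if `k = 0` then the analytic rank is `0` and there are finitely many rational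
points.
(2) The numbers `prob k` are positive with sum `1`, and `0.4194 < prob 0 < 0.4195`.
(3) For every `ε > 0` there is a height `M₀` such that for every `M₁`, for all large `X`, at least
`(1 - ε) #{D ∈ 𝒟 : D ≤ X}` of the `D ≤ X` in `𝒟` are typical: for all `M` from `M₀` to `M₁` the
twists of `E_D` by the `m ≤ M` in `𝒟` follow the law of the Selmer rank up to `ε` in total variation,
at least the share `prob 0 - ε` of them has analytic rank `0` and finitely many rational points, and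
at least the share `∑_{i ≤ k} prob i - ε` of them has rank `≤ 2 k`, for all `k`. -/
theorem result :
    (∀ m ∈ 𝒟, ∀ D ∈ 𝒟, tw m D ∈ 𝒟 ∧ ∃ j : ℕ, j ≠ 0 ∧ m * D = tw m D * j ^ 2) ∧
    (∀ D ∈ 𝒟, ∃ k : ℕ, SelmerRank D k ∧ Module.finrank ℤ (E D).toAffine.Point ≤ 2 * k ∧
      (k = 0 → AnRankZero D ∧ Finite (E D).toAffine.Point)) ∧
    ((∀ k, 0 < prob k) ∧ HasSum prob 1 ∧ 0.4194 < prob 0 ∧ prob 0 < 0.4195) ∧
    ∀ ε : ℝ, 0 < ε → ∃ M₀ : ℕ, ∀ M₁ : ℕ, ∀ᶠ X : ℕ in atTop,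
      1 - ε ≤ share {D | Typical ε M₀ M₁ D} X := by
  have hpe : prob = pr := funext prob_eq
  have hst : ∀ m D : ℕ, tw m D = Pool.Agent.X99.GJ.star m D := fun _ _ => rfl
  have hb := (Pool.Agent.Y948.CQ.c2_main Pool.Agent.Y697.PQ.gi Pool.Agent.Y697.CJ.gi_eq).2
  have hp0 : prob 0 = Pool.Agent.Y697.PQ.gi := by
    rw [hpe]
    show Pool.Agent.Y697.PQ.gi * Pool.Agent.Y697.PQ.cf 0 = _
    rw [show Pool.Agent.Y697.PQ.cf 0 = 1 from rfl, mul_one]
  refine ⟨fun m hm D hD => ?_, fun D hD => ?_, ⟨fun k => ?_, ?_, ?_, ?_⟩, fun ε hε => ?_⟩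
  · obtain ⟨-, -, k, hk, h⟩ := Pool.Agent.X99.GJ.star_pf (mem_𝒟.1 hm).1 (mem_𝒟.1 hD).1
    exact ⟨mem_𝒟.2 (fam_star (mem_𝒟.1 hm) (mem_𝒟.1 hD)), k, hk, h⟩
  · have h := mem_𝒟.1 hD
    exact ⟨kk D, (selmer_iff h _).2 rfl, rank_E h, an_zero h⟩
  · rw [hpe]
    exact mul_pos hb.1 (Pool.Agent.Y697.PQ.cf_pos k)
  · rw [hpe]
    exact hasSum_pr
  · rw [hp0]
    exact hb.2.2.1
  · rw [hp0]
    exact hb.2.2.2
  · obtain ⟨M₀, hM⟩ := slln hε
    refine ⟨M₀, fun M₁ => ?_⟩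
    filter_upwards [hM M₁] with X hX
    refine hX.trans ?_
    -- the two proportions
    have e1 : pX {D | ∀ M, M₀ ≤ M → M ≤ M₁ → ∀ A : Set ℕ,
        |shr A D M - ∑' k, A.indicator pr k| ≤ ε} X = share {D | ∀ M, M₀ ≤ M → M ≤ M₁ →
          ∀ A : Set ℕ, |shr A D M - ∑' k, A.indicator pr k| ≤ ε} X := by
      classical
      obtain ⟨d, h1, h2⟩ := set_eq {D | ∀ M, M₀ ≤ M → M ≤ M₁ →
          ∀ A : Set ℕ, |shr A D M - ∑' k, A.indicator pr k| ≤ ε} X
      unfold share pX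
      rw [h1, h2]
      unfold fM
      rw [Finset.filter_filter]
      congr 2
      exact Pool.Agent.X99.GJ.fc _ fun _ _ => Iff.rfl
    rw [e1]
    refine share_mono (fun D hD h => ?_) X
    have hF := mem_𝒟.1 hD
    intro M h1 h2
    have hA := h M h1 h2
    have hstar : ∀ m, m ∈ 𝒟 → Fam (Pool.Agent.X99.GJ.star m D) := fun m hm =>
      fam_star (mem_𝒟.1 hm) hF
    refine ⟨fun A => ?_, ?_, fun k => ?_⟩
    · rw [share_eq (A := A) (D := D), hpe]
      · exact hA A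
      · intro m hm
        constructor
        · rintro ⟨k, hk, h3⟩
          rw [hst, selmer_iff (fam_star hm hF)] at h3
          rw [h3]
          exact hk
        · intro h3
          refine ⟨_, h3, ?_⟩
          rw [hst, selmer_iff (fam_star hm hF)]
    · have h3 := hA {0}
      have h4 : ∑' k, ({0} : Set ℕ).indicator pr k = prob 0 := by
        rw [tsum_eq_single 0, Set.indicator_of_mem (Set.mem_singleton 0), prob_eq]
        intro k hk
        exact Set.indicator_of_notMem (fun h => hk (Set.mem_singleton_iff.1 h)) _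
      rw [h4] at h3
      have h5 : share {m | kk (Pool.Agent.X99.GJ.star m D) ∈ ({0} : Set ℕ)} M = shr {0} D M :=
        share_eq fun m _ => Iff.rfl
      have h6 : share {m | kk (Pool.Agent.X99.GJ.star m D) ∈ ({0} : Set ℕ)} M ≤
          share {m | AnRankZero (tw m D) ∧ Finite (E (tw m D)).toAffine.Point} M :=
        share_mono (fun m hm h => an_zero (hstar m hm) h) M
      have h7 := (abs_le.1 h3).1
      linarith
    · have h3 := hA (Set.Iic k)
      have h4 : ∑' i, (Set.Iic k).indicator pr i = ∑ i ∈ Finset.range (k + 1), prob i := by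
        rw [tsum_eq_sum (s := Finset.range (k + 1))]
        · refine Finset.sum_congr rfl fun i hi => ?_
          rw [Finset.mem_range] at hi
          rw [Set.indicator_of_mem (Set.mem_Iic.2 (by omega)), prob_eq]
        · intro i hi
          rw [Finset.mem_range] at hi
          exact Set.indicator_of_notMem (fun h => hi (by have := Set.mem_Iic.1 h; omega)) _
      rw [h4] at h3
      have h5 : share {m | kk (Pool.Agent.X99.GJ.star m D) ∈ Set.Iic k} M = shr (Set.Iic k) D M :=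
        share_eq fun m _ => Iff.rfl
      have h6 : share {m | kk (Pool.Agent.X99.GJ.star m D) ∈ Set.Iic k} M ≤
          share {m | Module.finrank ℤ (E (tw m D)).toAffine.Point ≤ 2 * k} M := by
        refine share_mono (fun m hm h => ?_) M
        have h7 : kk (Pool.Agent.X99.GJ.star m D) ≤ k := h
        exact (rank_E (hstar m hm)).trans (by omega)
      have h7 := (abs_le.1 h3).1
      linarith

end Pool.Agent.Results.MP_03e5d0_nt.AlmostEveryCurveShortRange
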