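import Pool.Agent.X278.AV.EllT
import Pool.Agent.X278.AV.CgE

/-!
# Goldfeld's conjecture for one elliptic curve: the normal law, and the interchange of two limits at two levels

`E : y² = x³ + A x + B` is an elliptic curve over `ℚ`, `E^d : y² = x³ + A d² x + B d³` its quadratic twists. For fixed
`γ > π/2` let

`ℓ_T(E^d) = ∑_{p ∤ 6 d (4 A³ + 27 B²)} log(#E^d(𝔽_p) / p) · cos(γ u) / Γ(1 + u)`, `u = log p / T`,

the logarithm of the original product of Birch and Swinnerton-Dyer with a smooth weight (absolutely convergent). For every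
single `d`, `ℓ_T(E^d) / log T` tends to the analytic rank of `E^d` as `T → ∞`; nothing is assumed on zeros.

Let `P(X, T; c)` be the proportion of the squarefree `d`, `0 < |d| ≤ X`, with `ℓ_T(E^d) ≤ c log T`. We prove

* a central limit theorem: if first `X → ∞` and then `T → ∞`, the proportion of the `d` with
  `ℓ_T(E^d) ≤ ½ log T + v √(log T)` tends to the standard normal distribution function `Φ(v)`; the exponential moments
  converge as well; in particular `lim_T lim_X P(X, T; c)` is `0` for `c < ½`, `½` for `c = ½`, and `1` for `c > ½`;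
* Goldfeld's conjecture for `E` (half of the twists have analytic rank `0`, half have analytic rank `1`) is EQUIVALENT to
  the interchange of the two limits of `P(X, T; c)` at the two levels `c = ½` and `c = c₁`, where `c₁` is any one number
  in `(1, 2)`: the level `½` gives the rank `0`, the level `c₁` gives the ranks `0` and `1` together.

For a general `E` this needs that the series of the squares of the Frobenius eigenvalues is meromorphic at `1` with a
simple zero, and that the `L`-series of the twists continue. For all curves `E : y² = x³ + A x` we prove both, and that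
half of the twists have even analytic rank. So everything is unconditional for the curves `y² = x³ + A x`, and for each of
them Goldfeld's conjecture is equivalent to the interchange of the two limits at ONE level `c ∈ (1, 2)`.
-/

set_option autoImplicit false

open Filter Topology Asymptotics

namespace Pool.Agent.Results.MP_03e5d0_nt.NormalLawMedian

/-- The prime `p` does not divide `6 (4 A³ + 27 B²)`. -/
def Good (A B : ℤ) (p : ℕ) : Prop := ¬ (p : ℤ) ∣ 6 * (4 * A ^ 3 + 27 * B ^ 2)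

/-- `N_p`, the number of affine points of `y² = x³ + A x + B` modulo `p`. -/
noncomputable def points (A B : ℤ) (p : ℕ) : ℕ :=
  Nat.card {P : ZMod p × ZMod p // P.2 ^ 2 = P.1 ^ 3 + (A : ZMod p) * P.1 + (B : ZMod p)}

/-- The weight `cos(γu) / Γ(1 + u)`. -/
noncomputable def weight (γ u : ℝ) : ℝ := Real.cos (γ * u) / Real.Gamma (1 + u)

/-- `ℓ_T(E)`, the sum of `w(log p / T) log((N_p + 1) / p)` over the primes not dividing `6 (4 A³ + 27 B²)`. -/
noncomputable def logProduct (A B : ℤ) (γ T : ℝ) : ℝ :=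
  ∑' p : Nat.Primes, open Classical in
    if Good A B p then weight γ (Real.log (p : ℕ) / T) * Real.log (((points A B p : ℝ) + 1) / (p : ℕ)) else 0

/-- `ℓ_T(E^d)` for the twist `E^d : y² = x³ + A d² x + B d³`. -/
noncomputable def S (A B : ℤ) (γ T : ℝ) (d : ℤ) : ℝ := logProduct (A * d ^ 2) (B * d ^ 3) γ T

/-- The squarefree integers `d ≠ 0` with `|d| ≤ X`. -/
noncomputable def twists (X : ℕ) : Finset ℤ :=
  open Classical in (Finset.Icc (-(X : ℤ)) X).filter fun d => d ≠ 0 ∧ Squarefree d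

/-- The proportion of the squarefree `d ≠ 0`, `|d| ≤ X`, with a property. -/
noncomputable def proportion (X : ℕ) (P : ℤ → Prop) : ℝ :=
  open Classical in (((twists X).filter P).card : ℝ) / (twists X).card

/-- `P(X, T)` tends to `ℓ` if first `X → ∞` and then `T → ∞`. -/
def FirstX (P : ℕ → ℝ → ℝ) (ℓ : ℝ) : Prop := ∀ ε : ℝ, 0 < ε → ∀ᶠ T : ℝ in atTop, ∀ᶠ X : ℕ in atTop, |P X T - ℓ| < ε

/-- `P(X, T)` tends to `ℓ` if first `T → ∞` and then `X → ∞`. -/
def FirstT (P : ℕ → ℝ → ℝ) (ℓ : ℝ) : Prop := ∀ ε : ℝ, 0 < ε → ∀ᶠ X : ℕ in atTop, ∀ᶠ T : ℝ in atTop, |P X T - ℓ| < ε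

/-- `P(X, T; c)`, the proportion of the squarefree `d ≠ 0`, `|d| ≤ X`, with `ℓ_T(E^d) ≤ c log T`. -/
noncomputable def level (A B : ℤ) (γ c : ℝ) (X : ℕ) (T : ℝ) : ℝ := proportion X fun d => S A B γ T d ≤ c * Real.log T

/-- `Φ(v)`, the distribution function of the standard normal law. -/
noncomputable def Phi (v : ℝ) : ℝ := (ProbabilityTheory.gaussianReal 0 1).real (Set.Iic v)

open Classical in
/-- `F` is the incomplete `L`-series of `y² = x³ + A x + B` for `Re s > 3/2`. -/
def IsLSeries (A B : ℤ) (F : ℂ → ℂ) : Prop :=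
  ∀ s : ℂ, 3 / 2 < s.re → HasProd (fun p : Nat.Primes => if Good A B p then
    (1 - (((p : ℕ) : ℂ) - points A B p) * ((p : ℕ) : ℂ) ^ (-s) + ((p : ℕ) : ℂ) ^ (1 - 2 * s))⁻¹ else 1) (F s)

open Classical in
/-- `F₂` is the product of the `(1 - (a_p² / p - 2) p^{-s} + p^{-2s})⁻¹`, `p ∤ 6 (4 A³ + 27 B²)`, for `Re s > 1`, where
`a_p = p - N_p`: that is, of the `((1 - α² p^{-s}) (1 - α⁻² p^{-s}))⁻¹` with `α √p` an eigenvalue of Frobenius. -/
def IsSquareSeries (A B : ℤ) (F₂ : ℂ → ℂ) : Prop :=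
  ∀ s : ℂ, 1 < s.re → HasProd (fun p : Nat.Primes => if Good A B p then
    (1 - ((((p : ℕ) : ℂ) - points A B p) ^ 2 / (p : ℕ) - 2) * ((p : ℕ) : ℂ) ^ (-s) +
      ((p : ℕ) : ℂ) ^ (-(2 * s)))⁻¹ else 1) (F₂ s)

open Pool.Agent.X278.AV Pool.Agent.X278.OP

theorem good_iff (A B : ℤ) (p : ℕ) : Good A B p ↔ GoodQ A B p := by
  unfold Good GoodQ
  rw [← ZMod.intCast_zmod_eq_zero_iff_dvd]
  push_cast
  rfl

/-- the local function at a curve -/
theorem ff_eq (A B : ℤ) (p : Nat.Primes) : ff (A : ZMod p) (B : ZMod p) =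
    (open Classical in if Good A B p then Real.log (((points A B p : ℝ) + 1) / (p : ℕ)) else 0) := by
  unfold ff
  by_cases h : Good A B p
  · have h' : ¬ ((6 : ZMod p) * (4 * (A : ZMod p) ^ 3 + 27 * (B : ZMod p) ^ 2) = 0) := (good_iff A B p).1 h
    rw [if_pos h, if_neg h', ZMod.card]
    rfl
  · have h' : (6 : ZMod p) * (4 * (A : ZMod p) ^ 3 + 27 * (B : ZMod p) ^ 2) = 0 := by
      by_contra h2
      exact h ((good_iff A B p).2 h2)
    rw [if_neg h, if_pos h']

theorem log_eq (A B : ℤ) (γ T : ℝ) : logProduct A B γ T =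
    ∑' p : Nat.Primes, wr γ (Real.log (p : ℕ) / T) * ff (A : ZMod p) (B : ZMod p) := by
  unfold logProduct
  refine tsum_congr fun p => ?_
  rw [ff_eq]
  split_ifs with h
  · rfl
  · simp

theorem S_eq (A B : ℤ) (x : Fin 1 → ℤ) (γ T : ℝ) : S A B γ T (x 0) =
    SmG (fun p : Nat.Primes => ((p : ℕ) : ℝ)) (fun p (x : Fin 1 → ℤ) => fN (alE A B) 1 (NE A B) p ((x 0 : ℤ) : ZMod p))
      γ T x := by
  unfold S SmG
  rw [log_eq]
  refine tsum_congr fun p => ?_
  show wr γ (Real.log (p : ℕ) / T) * ff ((A * x 0 ^ 2 : ℤ) : ZMod p) ((B * x 0 ^ 3 : ℤ) : ZMod p) =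
    wr γ (Real.log (p : ℕ) / T) * fN (alE A B) 1 (NE A B) p ((x 0 : ℤ) : ZMod p)
  rw [← ff_gU]
  push_cast
  rfl

theorem twists_eq (X : ℕ) : twists X = (Fam eG ZG (aG X)).map (Equiv.funUnique (Fin 1) ℤ).toEmbedding := by
  classical
  ext d
  rw [Finset.mem_map_equiv]
  unfold twists Fam
  rw [Finset.mem_filter, Finset.mem_filter, mem_Box, Finset.mem_Icc]
  have e0 : (Equiv.funUnique (Fin 1) ℤ).symm d 0 = d := rfl
  have h1 : (∀ j, |(Equiv.funUnique (Fin 1) ℤ).symm d j| ≤ (aG X j : ℤ)) ↔ |d| ≤ X := by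
    rw [Fin.forall_fin_one, e0]
    rfl
  have h2 : Pool.Agent.X278.AV.Min eG ((Equiv.funUnique (Fin 1) ℤ).symm d) ↔
      (∀ p : ℕ, p.Prime → ¬ ((p : ℤ) ^ 2 ∣ d)) := by
    unfold Pool.Agent.X278.AV.Min
    refine forall_congr' fun p => forall_congr' fun _ => not_congr ?_
    rw [Fin.forall_fin_one, e0]
    rfl
  have h3 : ZG ((Equiv.funUnique (Fin 1) ℤ).symm d) ↔ d = 0 := Iff.rfl
  have h4 : Squarefree d ↔ (∀ p : ℕ, p.Prime → ¬ ((p : ℤ) ^ 2 ∣ d)) := by
    rw [← Int.squarefree_natAbs, Nat.squarefree_iff_prime_squarefree]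
    refine forall_congr' fun p => forall_congr' fun _ => not_congr ?_
    rw [← _root_.pow_two, ← Int.natCast_dvd_natCast, Int.dvd_natAbs]
    push_cast
    rfl
  rw [h1, h2, h3, h4, abs_le]
  tauto

theorem card_eq (X : ℕ) : (twists X).card = (Fam eG ZG (aG X)).card := by
  rw [twists_eq, Finset.card_map]

theorem twists_ne : ∀ᶠ X in atTop, (twists X).Nonempty := by
  filter_upwards [fam_ne dataG] with X hX
  rw [← Finset.card_pos, card_eq]
  exact hX.card_pos


open Classical in
theorem prop_eq (X : ℕ) (P : ℤ → Prop) : proportion X P =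
    (((Fam eG ZG (aG X)).filter fun x : Fin 1 → ℤ => P (x 0)).card : ℝ) / (Fam eG ZG (aG X)).card := by
  unfold proportion
  rw [card_eq, twists_eq, Finset.filter_map, Finset.card_map]
  congr 2

theorem prop_congr (X : ℕ) {P Q : ℤ → Prop} (h : ∀ d, P d ↔ Q d) : proportion X P = proportion X Q := by
  have : P = Q := funext fun d => propext (h d)
  rw [this]

theorem prop_add (X : ℕ) {P Q : ℤ → Prop} (h : ∀ d, ¬ (P d ∧ Q d)) :
    proportion X (fun d => P d ∨ Q d) = proportion X P + proportion X Q := by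
  classical
  unfold proportion
  rw [← add_div]
  congr 1
  have h2 : Disjoint ((twists X).filter P) ((twists X).filter Q) := by
    rw [Finset.disjoint_filter]
    intro d _ h3 h4
    exact h d ⟨h3, h4⟩
  have h3 := Finset.card_union_of_disjoint h2
  rw [← Finset.filter_or] at h3
  have h4 : (((twists X).filter fun d => P d ∨ Q d).card : ℝ) = ((twists X).filter P).card + ((twists X).filter Q).card := by
    exact_mod_cast h3
  convert h4

open ProbabilityTheory MeasureTheory in
theorem Phi_zero : Phi 0 = 1 / 2 := by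
  unfold Phi
  have hna := nullSingletonClass_gaussianReal (μ := 0) (v := 1) one_ne_zero
  have h1 : gaussianReal 0 1 (Set.Ici 0) = gaussianReal 0 1 (Set.Iic 0) := by
    have h2 : (gaussianReal 0 1).map (fun x => -x) = gaussianReal 0 1 := by
      rw [gaussianReal_map_neg, neg_zero]
    have h3 : (gaussianReal 0 1).map (fun x => -x) (Set.Ici 0) = gaussianReal 0 1 (Set.Iic 0) := by
      rw [Measure.map_apply measurable_neg measurableSet_Ici]
      congr 1
      ext x
      simp
    rw [← h3, h2]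
  have h2 : gaussianReal 0 1 (Set.Ioi 0) = gaussianReal 0 1 (Set.Ici 0) := measure_congr Ioi_ae_eq_Ici
  have h3 : (gaussianReal 0 1).real (Set.Iic 0) + (gaussianReal 0 1).real (Set.Iic 0)ᶜ = 1 := by
    rw [measureReal_add_measureReal_compl measurableSet_Iic, probReal_univ]
  have h4 : (gaussianReal 0 1).real (Set.Iic (0 : ℝ))ᶜ = (gaussianReal 0 1).real (Set.Iic 0) := by
    rw [Set.compl_Iic]
    unfold Measure.real
    rw [h2, h1]
  rw [h4] at h3
  linarith

theorem abs_conv (A B : ℤ) (γ : ℝ) (d : ℤ) (T : ℝ) (hT : 0 < T) : Summable fun p : Nat.Primes => open Classical in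
    if Good (A * d ^ 2) (B * d ^ 3) p then |weight γ (Real.log (p : ℕ) / T) *
      Real.log (((points (A * d ^ 2) (B * d ^ 3) p : ℝ) + 1) / (p : ℕ))| else 0 := by
  classical
  have hff : ∀ (A' B' : ℤ) (p : Nat.Primes), |ff (A' : ZMod p) (B' : ZMod p)| ≤ 100 / √((p : ℕ) : ℝ) := by
    intro A' B' p
    have := ff_size (a := (A' : ZMod p)) (b := (B' : ZMod p))
    rw [ZMod.card] at this
    exact this
  refine Summable.of_nonneg_of_le (fun p => by split_ifs <;> positivity) (fun p => ?_)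
    (wt_sum (γ := γ) hT (B := 100) (by norm_num))
  have h1 := hff (A * d ^ 2) (B * d ^ 3) p
  rw [ff_eq] at h1
  by_cases h : Good (A * d ^ 2) (B * d ^ 3) p
  · rw [if_pos h] at h1 ⊢
    rw [abs_mul, mul_comm]
    have hu : 0 ≤ Real.log (p : ℕ) / T :=
      div_nonneg (Real.log_nonneg (by exact_mod_cast p.2.one_lt.le)) hT.le
    have h2 : |weight γ (Real.log (p : ℕ) / T)| ≤ ‖Wt γ (Real.log (p : ℕ) / T)‖ := by
      have h3 : weight γ (Real.log (p : ℕ) / T) = (Wt γ (Real.log (p : ℕ) / T)).re := by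
        rw [re_Wt]
        unfold weight
        ring
      rw [h3]
      exact Complex.abs_re_le_norm _
    gcongr
  · rw [if_neg h]
    positivity

/-- The normal law; Goldfeld's conjecture for one curve as an interchange of limits at two levels. -/
theorem general (A B : ℤ) (hAB : 4 * A ^ 3 + 27 * B ^ 2 ≠ 0) (F₂ : ℂ → ℂ) (hF₂ : IsSquareSeries A B F₂)
    (hm₂ : MeromorphicAt F₂ 1) (hn : meromorphicOrderAt F₂ 1 = ((1 : ℤ) : WithTop ℤ)) (γ : ℝ) (hγ : Real.pi / 2 < γ) :
    -- absolute convergence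
    (∀ (d : ℤ) (T : ℝ), 0 < T → Summable fun p : Nat.Primes => open Classical in
      if Good (A * d ^ 2) (B * d ^ 3) p then |weight γ (Real.log (p : ℕ) / T) *
        Real.log (((points (A * d ^ 2) (B * d ^ 3) p : ℝ) + 1) / (p : ℕ))| else 0) ∧
    -- A. the normal law
    (∀ v : ℝ, FirstX (fun X T => proportion X fun d => (S A B γ T d - 1 / 2 * Real.log T) / √(Real.log T) ≤ v) (Phi v)) ∧
    Phi 0 = 1 / 2 ∧
    (∀ (ζ : ℂ) (ε : ℝ), 0 < ε → ∀ᶠ T : ℝ in atTop, ∀ᶠ X : ℕ in atTop,
      ‖(∑ d ∈ twists X, Complex.exp (ζ * (((S A B γ T d - 1 / 2 * Real.log T) / √(Real.log T) : ℝ) : ℂ))) /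
        (twists X).card - Complex.exp (ζ ^ 2 / 2)‖ < ε) ∧
    -- B. the levels
    (∀ c : ℝ, (c < 1 / 2 → FirstX (level A B γ c) 0) ∧ (c = 1 / 2 → FirstX (level A B γ c) (1 / 2)) ∧
      (1 / 2 < c → FirstX (level A B γ c) 1)) ∧
    -- C. the analytic ranks
    ∀ L : ℤ → ℂ → ℂ,
      (∀ d : ℤ, d ≠ 0 → Squarefree d → IsLSeries (A * d ^ 2) (B * d ^ 3) (L d) ∧ AnalyticAt ℂ (L d) 1 ∧
        ∀ x : ℝ, 1 ≤ x → x ≤ 3 / 2 → MeromorphicAt (L d) (x : ℂ)) →
      ∃ m : ℤ → ℕ,
        (∀ d : ℤ, d ≠ 0 → Squarefree d → analyticOrderAt (L d) 1 = m d ∧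
          Tendsto (fun T : ℝ => S A B γ T d / Real.log T) atTop (𝓝 (m d : ℝ))) ∧
        (∀ c : ℝ, (∀ k : ℕ, (k : ℝ) ≠ c) → ∀ X : ℕ,
          Tendsto (level A B γ c X) atTop (𝓝 (proportion X fun d => (m d : ℝ) ≤ c))) ∧
        -- D. rank `0`; ranks `0` and `1`
        (Tendsto (fun X => proportion X fun d => m d = 0) atTop (𝓝 (1 / 2)) ↔ FirstT (level A B γ (1 / 2)) (1 / 2)) ∧
        (∀ c : ℝ, 1 < c → c < 2 →
          (Tendsto (fun X => proportion X fun d => m d ≤ 1) atTop (𝓝 1) ↔ FirstT (level A B γ c) 1)) ∧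
        -- E. Goldfeld's conjecture for `E`
        (∀ c : ℝ, 1 < c → c < 2 →
          ((Tendsto (fun X => proportion X fun d => m d = 0) atTop (𝓝 (1 / 2)) ∧
            Tendsto (fun X => proportion X fun d => m d = 1) atTop (𝓝 (1 / 2))) ↔
          (FirstT (level A B γ (1 / 2)) (1 / 2) ∧ FirstT (level A B γ c) 1)) ∧
          (FirstX (level A B γ (1 / 2)) (1 / 2) ∧ FirstX (level A B γ c) 1)) := by
  classical
  -- the asymptotics
  obtain ⟨n, c₀, hn', hsum2, hlim2⟩ := real_axis (β := fun p i => alE A B p i ^ 2) (F := F₂) (fun p i => by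
    rw [norm_pow]
    exact pow_le_one₀ (norm_nonneg _) (alE_bd A B p i)) (fun s hs => by
      refine (hF₂ s hs).congr_fun fun p => ?_
      rw [fac_alE]
      by_cases h : Good A B p
      · rw [if_pos h, if_pos ((good_iff _ _ _).1 h)]
        rfl
      · rw [if_neg h, if_neg (fun h' => h ((good_iff _ _ _).2 h'))]) hm₂
  have hn1 : n = 1 := by
    rw [hn] at hn'
    exact_mod_cast hn'.symm
  subst hn1
  obtain ⟨c₁, W⟩ := nu_pgl (alE_bd A B) (NE_ne hAB) (fun p hp i => alE_zero A B p hp i) (alE_mul A B) hsum2 hlim2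
  have W' : Wts (fun p : Nat.Primes => ((p : ℕ) : ℝ)) (nuU (alE A B)) 1 c₁ := by
    have e1 : (2 - ((1 : ℤ) : ℝ)) = 1 := by push_cast; ring
    rw [e1] at W
    exact W
  obtain ⟨k₁, k₂, A0⟩ := as_of (alE_bd A B) hsum2 hlim2 W' γ
  have D := FnG_fam (alE_bd A B) (NE_two A B) (fun p hp i => alE_zero A B p hp i)
  have A1 : As (fun p : Nat.Primes => ((p : ℕ) : ℝ)) (kapU (alE A B)) (nuU (alE A B)) γ (1 / 2) ((1 : NNReal) : ℝ) k₁ k₂ := by
    rw [NNReal.coe_one]
    have e1 : (((1 : ℤ) : ℝ) / 2) = 1 / 2 := by push_cast; ring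
    rw [e1] at A0
    exact A0
  have hA : ∀ v : ℝ, FirstX (fun X T => proportion X fun d =>
      (S A B γ T d - 1 / 2 * Real.log T) / √(Real.log T) ≤ v) (Phi v) := by
    intro v ε hε
    have h1 := D.gauss A1 one_ne_zero v ε hε
    filter_upwards [h1] with T h2
    filter_upwards [h2] with X hX
    have e1 := prop_eq X (fun d => (S A B γ T d - 1 / 2 * Real.log T) / √(Real.log T) ≤ v)
    show |proportion X (fun d => (S A B γ T d - 1 / 2 * Real.log T) / √(Real.log T) ≤ v) - Phi v| < ε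
    rw [e1]
    simp only [S_eq]
    exact hX
  -- proportions
  have hmono : ∀ (X : ℕ) (P Q : ℤ → Prop), (∀ d, P d → Q d) → proportion X P ≤ proportion X Q := by
    intro X P Q h
    unfold proportion
    gcongr
    exact h _
  have h01 : ∀ (X : ℕ) (P : ℤ → Prop), 0 ≤ proportion X P ∧ proportion X P ≤ 1 := by
    intro X P
    unfold proportion
    refine ⟨by positivity, ?_⟩
    refine div_le_one_of_le₀ ?_ (Nat.cast_nonneg _)
    exact_mod_cast Finset.card_filter_le _ _
  have hPhi1 : Tendsto Phi atTop (𝓝 1) := by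
    have h1 := ProbabilityTheory.tendsto_cdf_atTop (ProbabilityTheory.gaussianReal 0 1)
    refine h1.congr fun x => ?_
    rw [ProbabilityTheory.cdf_eq_real]
    rfl
  have hPhi0 : Tendsto Phi atBot (𝓝 0) := by
    have h1 := ProbabilityTheory.tendsto_cdf_atBot (ProbabilityTheory.gaussianReal 0 1)
    refine h1.congr fun x => ?_
    rw [ProbabilityTheory.cdf_eq_real]
    rfl
  have hlog : Tendsto (fun T : ℝ => √(Real.log T)) atTop atTop := Real.tendsto_sqrt_atTop.comp Real.tendsto_log_atTop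
  have hnorm : ∀ (T c : ℝ), 1 < T → ∀ d : ℤ, (S A B γ T d ≤ c * Real.log T ↔
      (S A B γ T d - 1 / 2 * Real.log T) / √(Real.log T) ≤ (c - 1 / 2) * √(Real.log T)) := by
    intro T c hT d
    have hl : 0 < Real.log T := Real.log_pos hT
    have hs : 0 < √(Real.log T) := Real.sqrt_pos.2 hl
    have hss : √(Real.log T) * √(Real.log T) = Real.log T := Real.mul_self_sqrt hl.le
    rw [div_le_iff₀ hs, mul_assoc, hss]
    constructor <;> intro h <;> linarith
  have hB1 : ∀ c : ℝ, 1 / 2 < c → FirstX (level A B γ c) 1 := by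
    intro c hc ε hε
    obtain ⟨v, hv⟩ := ((Metric.tendsto_nhds.1 hPhi1) (ε / 2) (by positivity)).exists
    rw [Real.dist_eq] at hv
    have h2 := hlog.const_mul_atTop (sub_pos.2 hc)
    filter_upwards [hA v (ε / 2) (by positivity), h2.eventually_ge_atTop v, eventually_gt_atTop (1 : ℝ)] with T h3 h4 h5
    filter_upwards [h3] with X h6
    have h7 : proportion X (fun d => (S A B γ T d - 1 / 2 * Real.log T) / √(Real.log T) ≤ v) ≤
        level A B γ c X T := hmono X _ _ fun d hd => (hnorm T c h5 d).2 (hd.trans h4)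
    have h8 : level A B γ c X T ≤ 1 := (h01 X _).2
    rw [abs_lt] at h6 hv ⊢
    constructor <;> linarith [h6.1, h6.2, hv.1, hv.2]
  have hB0 : ∀ c : ℝ, c < 1 / 2 → FirstX (level A B γ c) 0 := by
    intro c hc ε hε
    obtain ⟨v, hv⟩ := ((Metric.tendsto_nhds.1 hPhi0) (ε / 2) (by positivity)).exists
    rw [Real.dist_eq] at hv
    have h2 : Tendsto (fun T : ℝ => (c - 1 / 2) * √(Real.log T)) atTop atBot :=
      hlog.const_mul_atTop_of_neg (sub_neg.2 hc)
    filter_upwards [hA v (ε / 2) (by positivity), h2.eventually_le_atBot v, eventually_gt_atTop (1 : ℝ)] with T h3 h4 h5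
    filter_upwards [h3] with X h6
    have h7 : level A B γ c X T ≤
        proportion X (fun d => (S A B γ T d - 1 / 2 * Real.log T) / √(Real.log T) ≤ v) :=
      hmono X _ _ fun d hd => ((hnorm T c h5 d).1 hd).trans h4
    have h8 : 0 ≤ level A B γ c X T := (h01 X _).1
    rw [abs_lt] at h6 hv ⊢
    constructor <;> linarith [h6.1, h6.2, hv.1, hv.2]
  have hBh : ∀ c : ℝ, c = 1 / 2 → FirstX (level A B γ c) (1 / 2) := by
    intro c hc ε hε
    have h1 := hA 0 ε hε
    filter_upwards [h1, eventually_gt_atTop (1 : ℝ)] with T h2 h3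
    filter_upwards [h2] with X h4
    rw [Phi_zero] at h4
    have e1 : level A B γ c X T = proportion X (fun d =>
        (S A B γ T d - 1 / 2 * Real.log T) / √(Real.log T) ≤ 0) := by
      unfold level
      congr 1
      funext d
      rw [hnorm T c h3 d, hc, sub_self, zero_mul]
    rw [e1]
    exact h4
  have hff : ∀ (A' B' : ℤ) (p : Nat.Primes), |ff (A' : ZMod p) (B' : ZMod p)| ≤ 100 / √((p : ℕ) : ℝ) := by
    intro A' B' p
    have := ff_size (a := (A' : ZMod p)) (b := (B' : ZMod p))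
    rw [ZMod.card] at this
    exact this
  refine ⟨fun d T hT => ?_, hA, Phi_zero, ?_, fun c => ⟨hB0 c, hBh c, hB1 c⟩, fun L hL => ?_⟩
  · refine Summable.of_nonneg_of_le (fun p => by split_ifs <;> positivity) (fun p => ?_)
      (wt_sum (γ := γ) hT (B := 100) (by norm_num))
    have h1 := hff (A * d ^ 2) (B * d ^ 3) p
    rw [ff_eq] at h1
    by_cases h : Good (A * d ^ 2) (B * d ^ 3) p
    · rw [if_pos h] at h1 ⊢
      rw [abs_mul, mul_comm]
      have hu : 0 ≤ Real.log (p : ℕ) / T :=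
        div_nonneg (Real.log_nonneg (by exact_mod_cast p.2.one_lt.le)) hT.le
      have h2 : |weight γ (Real.log (p : ℕ) / T)| ≤ ‖Wt γ (Real.log (p : ℕ) / T)‖ := by
        have h3 : weight γ (Real.log (p : ℕ) / T) = (Wt γ (Real.log (p : ℕ) / T)).re := by
          rw [re_Wt]
          unfold weight
          ring
        rw [h3]
        exact Complex.abs_re_le_norm _
      gcongr
    · rw [if_neg h]
      positivity
  · intro ζ ε hε
    have h1 := (Metric.tendsto_nhds.1 (D.curry A1 ζ)) ε hε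
    rw [Filter.eventually_curry_iff] at h1
    filter_upwards [h1] with T h2
    filter_upwards [h2] with X hX
    rw [dist_eq_norm] at hX
    have e1 : ((((1 : NNReal) : ℝ) : ℂ) * ζ ^ 2 / 2) = ζ ^ 2 / 2 := by push_cast; ring
    rw [e1] at hX
    refine lt_of_eq_of_lt ?_ hX
    congr 2
    unfold Pool.Agent.X278.AV.meanC
    rw [card_eq, twists_eq, Finset.sum_map]
    congr 1
    refine Finset.sum_congr rfl fun x _ => ?_
    show Complex.exp (ζ * (((S A B γ T (x 0) - 1 / 2 * Real.log T) / √(Real.log T) : ℝ) : ℂ)) = _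
    rw [S_eq]
    rfl
  · have hgr : ∀ d : ℤ, d ≠ 0 ∧ Squarefree d → ∃ m : ℕ, analyticOrderAt (L d) 1 = m ∧
        Tendsto (fun T : ℝ => S A B γ T d / Real.log T) atTop (𝓝 (m : ℝ)) := by
      intro d hd
      obtain ⟨h1, ha, h2⟩ := hL d hd.1 hd.2
      have h3 : ∀ s : ℂ, 3 / 2 < s.re → HasProd (efQ (A * d ^ 2) (B * d ^ 3) s) (L d s) := by
        intro s hs
        have h4 := h1 s hs
        have e1 : efQ (A * d ^ 2) (B * d ^ 3) s = fun p : Nat.Primes => if Good (A * d ^ 2) (B * d ^ 3) p then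
            (1 - (((p : ℕ) : ℂ) - points (A * d ^ 2) (B * d ^ 3) p) * ((p : ℕ) : ℂ) ^ (-s) +
              ((p : ℕ) : ℂ) ^ (1 - 2 * s))⁻¹ else 1 := by
          funext p
          unfold efQ
          by_cases h : Good (A * d ^ 2) (B * d ^ 3) p
          · rw [if_pos h, if_pos ((good_iff _ _ _).1 h)]
            rfl
          · rw [if_neg h, if_neg (fun h' => h ((good_iff _ _ _).2 h'))]
        rw [e1]
        exact h4
      obtain ⟨m, hm1, hm2⟩ := SQ_growth (A * d ^ 2) (B * d ^ 3) h3 h2 hγ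
      rw [ha.meromorphicOrderAt_eq] at hm1
      obtain ⟨n, hn⟩ : ∃ n : ℕ, analyticOrderAt (L d) 1 = n := by
        by_cases h5 : analyticOrderAt (L d) 1 = ⊤
        · rw [h5, ENat.map_top] at hm1
          exact absurd hm1 (by simp)
        · obtain ⟨n, hn⟩ := ENat.ne_top_iff_exists.1 h5
          exact ⟨n, hn.symm⟩
      have hmn : (m : ℝ) = n := by
        rw [hn] at hm1
        simp only [ENat.map_coe] at hm1
        have : (n : ℤ) = m := by exact_mod_cast hm1
        rw [← this]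
        push_cast
        rfl
      refine ⟨n, hn, ?_⟩
      rw [← hmn]
      refine hm2.lim.congr' ?_
      filter_upwards [eventually_gt_atTop (0 : ℝ)] with T hT
      congr 1
      unfold SQ
      have hs : Summable fun p : Nat.Primes => ((ff ((A * d ^ 2 : ℤ) : ZMod p) ((B * d ^ 3 : ℤ) : ZMod p) : ℝ) : ℂ) *
          Wt γ (Real.log (p : ℕ) / T) := by
        refine Summable.of_norm (Summable.of_nonneg_of_le (fun _ => norm_nonneg _) (fun p => ?_)
          (wt_sum (γ := γ) hT (B := 100) (by norm_num)))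
        rw [norm_mul, Complex.norm_real, Real.norm_eq_abs]
        gcongr
        exact hff _ _ p
      unfold S
      rw [log_eq, Complex.re_tsum hs]
      refine tsum_congr fun p => ?_
      rw [Complex.re_ofReal_mul, re_Wt]
      unfold wr
      ring
    choose! m hm using hgr
    have hmem : ∀ (X : ℕ), ∀ d ∈ twists X, d ≠ 0 ∧ Squarefree d := by
      intro X d hd
      unfold twists at hd
      exact (Finset.mem_filter.1 hd).2
    have hlev : ∀ c : ℝ, (∀ k : ℕ, (k : ℝ) ≠ c) → ∀ X : ℕ,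
        Tendsto (level A B γ c X) atTop (𝓝 (proportion X fun d => (m d : ℝ) ≤ c)) := by
      intro c hc X
      have h1 : ∀ d ∈ twists X, ∀ᶠ T : ℝ in atTop, (S A B γ T d ≤ c * Real.log T ↔ (m d : ℝ) ≤ c) := by
        intro d hd
        have h2 := (hm d (hmem X d hd)).2
        rcases lt_or_gt_of_ne (hc (m d)) with h | h
        · filter_upwards [h2.eventually_lt_const h, eventually_gt_atTop (1 : ℝ)] with T h3 h4
          rw [div_lt_iff₀ (Real.log_pos h4)] at h3
          exact ⟨fun _ => h.le, fun _ => h3.le⟩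
        · filter_upwards [h2.eventually_const_lt h, eventually_gt_atTop (1 : ℝ)] with T h3 h4
          rw [lt_div_iff₀ (Real.log_pos h4)] at h3
          exact ⟨fun h5 => absurd h5 (not_le.2 h3), fun h5 => absurd h5 (not_le.2 h)⟩
      have h2 : ∀ᶠ T : ℝ in atTop, ∀ d ∈ twists X, (S A B γ T d ≤ c * Real.log T ↔ (m d : ℝ) ≤ c) :=
        (Filter.eventually_all_finset (twists X)).2 h1
      refine tendsto_const_nhds.congr' ?_
      filter_upwards [h2] with T hT
      unfold level proportion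
      rw [Finset.filter_congr hT]
    have hiff : ∀ (c ℓ : ℝ), (∀ k : ℕ, (k : ℝ) ≠ c) →
        (Tendsto (fun X => proportion X fun d => (m d : ℝ) ≤ c) atTop (𝓝 ℓ) ↔ FirstT (level A B γ c) ℓ) := by
      intro c ℓ hc
      constructor
      · intro h ε hε
        have h1 := (Metric.tendsto_nhds.1 h) ε hε
        filter_upwards [h1] with X hX
        rw [Real.dist_eq] at hX
        exact ((hlev c hc X).sub_const ℓ).abs.eventually_lt_const hX
      · intro h
        rw [Metric.tendsto_nhds]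
        intro ε hε
        filter_upwards [h (ε / 2) (by positivity)] with X hX
        have h3 : |(proportion X fun d => (m d : ℝ) ≤ c) - ℓ| ≤ ε / 2 :=
          le_of_tendsto ((hlev c hc X).sub_const ℓ).abs (hX.mono fun T hT => hT.le)
        rw [Real.dist_eq]
        linarith
    have hcase : ∀ k : ℕ, k = 0 ∨ k = 1 ∨ 2 ≤ k := fun k => by omega
    have hc1 : ∀ k : ℕ, (k : ℝ) ≠ 1 / 2 := by
      intro k h
      rcases Nat.eq_zero_or_pos k with h1 | h1
      · rw [h1] at h
        norm_num at h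
      · have : (1 : ℝ) ≤ k := by exact_mod_cast h1
        linarith
    have hc2 : ∀ c : ℝ, 1 < c → c < 2 → ∀ k : ℕ, (k : ℝ) ≠ c := by
      intro c hc hc' k h
      rcases Nat.lt_or_ge k 2 with h1 | h1
      · have : (k : ℝ) ≤ 1 := by exact_mod_cast Nat.lt_succ_iff.1 h1
        linarith
      · have : (2 : ℝ) ≤ k := by exact_mod_cast h1
        linarith
    have e0 : ∀ X, (proportion X fun d => m d = 0) = proportion X fun d => (m d : ℝ) ≤ 1 / 2 := by
      intro X
      refine prop_congr X fun d => ?_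
      constructor
      · intro h
        rw [h]
        norm_num
      · intro h
        by_contra h1
        have : (1 : ℝ) ≤ m d := by exact_mod_cast Nat.one_le_iff_ne_zero.2 h1
        linarith
    have e1 : ∀ c : ℝ, 1 < c → c < 2 → ∀ X, (proportion X fun d => m d ≤ 1) = proportion X fun d => (m d : ℝ) ≤ c := by
      intro c hc hc' X
      refine prop_congr X fun d => ?_
      constructor
      · intro h
        have : (m d : ℝ) ≤ 1 := by exact_mod_cast h
        linarith
      · intro h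
        by_contra h1
        have : (2 : ℝ) ≤ m d := by exact_mod_cast (not_le.1 h1)
        linarith
    have hD0 : Tendsto (fun X => proportion X fun d => m d = 0) atTop (𝓝 (1 / 2)) ↔
        FirstT (level A B γ (1 / 2)) (1 / 2) := by
      rw [← hiff (1 / 2) (1 / 2) hc1]
      simp only [e0]
    have hD1 : ∀ c : ℝ, 1 < c → c < 2 →
        (Tendsto (fun X => proportion X fun d => m d ≤ 1) atTop (𝓝 1) ↔ FirstT (level A B γ c) 1) := by
      intro c hc hc'
      rw [← hiff c 1 (hc2 c hc hc')]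
      simp only [e1 c hc hc']
    have hadd : ∀ X, (proportion X fun d => m d ≤ 1) =
        (proportion X fun d => m d = 0) + proportion X fun d => m d = 1 := by
      intro X
      rw [← prop_add X (fun d h => by omega)]
      exact prop_congr X fun d => Nat.le_one_iff_eq_zero_or_eq_one
    refine ⟨m, fun d h1 h2 => hm d ⟨h1, h2⟩, hlev, hD0, hD1, fun c hc hc' => ⟨?_, hBh _ rfl, hB1 c (by linarith)⟩⟩
    rw [← hD0, ← hD1 c hc hc']
    constructor
    · rintro ⟨h1, h2⟩
      refine ⟨h1, ?_⟩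
      simp only [hadd]
      have h3 := h1.add h2
      norm_num at h3 ⊢
      exact h3
    · rintro ⟨h1, h2⟩
      refine ⟨h1, ?_⟩
      have h3 := h2.sub h1
      simp only [hadd, add_sub_cancel_left] at h3
      have e3 : (1 : ℝ) - 1 / 2 = 1 / 2 := by norm_num
      rw [e3] at h3
      exact h3

/-! ### the curves `y² = x³ + A x` -/

theorem sq_series {A : ℤ} (hA : A ≠ 0) : ∃ F₂ : ℂ → ℂ, IsSquareSeries A 0 F₂ ∧ MeromorphicAt F₂ 1 ∧
    meromorphicOrderAt F₂ 1 = ((1 : ℤ) : WithTop ℤ) := by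
  classical
  obtain ⟨F₂, h1, h2, h3⟩ := Cg.square A hA
  refine ⟨F₂, fun s hs => ?_, h1, h2⟩
  refine (h3 s hs).congr_fun fun p => ?_
  by_cases h : Good A 0 p
  · have h' : ¬ (((p : ℕ) : ℤ) ∣ 6 * (4 * A ^ 3 + 27 * 0 ^ 2)) := h
    rw [if_pos h, if_pos h']
    unfold points Pool.Agent.Y19.QT.ap
    push_cast
    rfl
  · have h' : ¬ ¬ (((p : ℕ) : ℤ) ∣ 6 * (4 * A ^ 3 + 27 * 0 ^ 2)) := h
    rw [if_neg h, if_neg h']

theorem l_series {A : ℤ} (hA : A ≠ 0) : ∃ L : ℤ → ℂ → ℂ,
    (∀ d : ℤ, d ≠ 0 → Squarefree d → Differentiable ℂ (L d) ∧ IsLSeries (A * d ^ 2) (0 * d ^ 3) (L d)) ∧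
    ∃ C : ℝ, ∀ X : ℕ, 1 ≤ X →
      |∑ d ∈ twists X, (-1 : ℝ) ^ (analyticOrderAt (L d) 1).toNat| ≤ C * Real.sqrt X := by
  classical
  obtain ⟨L, hL, C, hC⟩ := Cg.mainA A hA
  refine ⟨L, fun d _ hd => ⟨(hL d hd).1, fun s hs => ?_⟩, C, fun X hX => ?_⟩
  · refine ((hL d hd).2 s hs).congr_fun fun p => ?_
    by_cases h : Good (A * d ^ 2) (0 * d ^ 3) p
    · have h' : ¬ (((p : ℕ) : ℤ) ∣ 6 * (4 * (A * d ^ 2) ^ 3 + 27 * (0 * d ^ 3) ^ 2)) := h
      rw [if_pos h, if_pos h']
      unfold points Pool.Agent.Y19.QT.ap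
      push_cast
      rfl
    · have h' : ¬ ¬ (((p : ℕ) : ℤ) ∣ 6 * (4 * (A * d ^ 2) ^ 3 + 27 * (0 * d ^ 3) ^ 2)) := h
      rw [if_neg h, if_neg h']
  · have e : twists X = Pool.Agent.Y19.QT.sqf X := by
      ext d
      rw [Pool.Agent.Y19.QT.mem_sqf]
      unfold twists
      rw [Finset.mem_filter, Finset.mem_Icc, abs_le]
      constructor
      · rintro ⟨h1, -, h2⟩
        exact ⟨h1, h2⟩
      · rintro ⟨h1, h2⟩
        exact ⟨h1, h2.ne_zero, h2⟩
    rw [e]
    exact hC X hX

theorem twists_growth : Tendsto (fun X : ℕ => Real.sqrt X / (twists X).card) atTop (𝓝 0) := by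
  have h1 := fam_card dataG.hk dataG.he aG dataG.ha ZG dataG.zero dataG.lim
  have hs : 2 ≤ ∑ j, eG j := by simp [eG]
  have h2 := (DD_ratio (s := ∑ j, eG j) (N := 1) hs).2
  have h3 : Tendsto (fun X : ℕ => 1 / 2 * (Real.sqrt X)⁻¹) atTop (𝓝 (1 / 2 * 0)) :=
    (tendsto_inv_atTop_zero.comp (Real.tendsto_sqrt_atTop.comp tendsto_natCast_atTop_atTop)).const_mul _
  have h4 := h3.div h1 h2
  rw [mul_zero, zero_div] at h4
  refine h4.congr' ?_
  filter_upwards [eventually_ge_atTop 1] with X hX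
  have hX' : (1 : ℝ) ≤ X := by exact_mod_cast hX
  have h5 : ∏ j, (2 * (aG X j : ℝ)) = 2 * X := by simp [aG]
  have h6 : Real.sqrt X * Real.sqrt X = X := Real.mul_self_sqrt (by linarith)
  have h7 : 0 < Real.sqrt X := Real.sqrt_pos.2 (by linarith)
  have h8 : Real.sqrt X ≠ 0 := h7.ne'
  show 1 / 2 * (Real.sqrt X)⁻¹ / (((Fam eG ZG (aG X)).card : ℝ) / ∏ j, (2 * (aG X j : ℝ))) = _
  rw [h5, card_eq]
  by_cases h9 : ((Fam eG ZG (aG X)).card : ℝ) = 0
  · rw [h9]
    simp
  · have h10 : (X : ℝ) ≠ 0 := by linarith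
    field_simp
    rw [_root_.pow_two, h6]

theorem even_lim {m : ℤ → ℕ} {C : ℝ} (h : ∀ X : ℕ, 1 ≤ X → |∑ d ∈ twists X, (-1 : ℝ) ^ (m d)| ≤ C * Real.sqrt X) :
    Tendsto (fun X => proportion X fun d => Even (m d)) atTop (𝓝 (1 / 2)) := by
  classical
  have h1 : ∀ᶠ X : ℕ in atTop, (proportion X fun d => Even (m d)) - 1 / 2 =
      (∑ d ∈ twists X, (-1 : ℝ) ^ (m d)) / (twists X).card / 2 := by
    filter_upwards [twists_ne] with X hX
    have h2 : ((twists X).card : ℝ) ≠ 0 := by
      have := hX.card_pos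
      positivity
    have h3 : ∑ d ∈ twists X, (-1 : ℝ) ^ (m d) =
        2 * (((twists X).filter fun d => Even (m d)).card : ℝ) - (twists X).card := by
      have e1 : ∀ d ∈ twists X, (-1 : ℝ) ^ (m d) = 2 * (if Even (m d) then 1 else 0) - 1 := by
        intro d _
        by_cases he : Even (m d)
        · rw [he.neg_one_pow, if_pos he]
          norm_num
        · rw [(Nat.not_even_iff_odd.1 he).neg_one_pow, if_neg he]
          norm_num
      rw [Finset.sum_congr rfl e1, Finset.sum_sub_distrib, ← Finset.mul_sum, Finset.sum_boole]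
      simp
    have e2 : proportion X (fun d => Even (m d)) =
        (((twists X).filter fun d => Even (m d)).card : ℝ) / (twists X).card := by
      unfold proportion
      congr!
    rw [e2, h3, sub_div, mul_div_assoc, div_self h2]
    ring
  have h2 : Tendsto (fun X : ℕ => (∑ d ∈ twists X, (-1 : ℝ) ^ (m d)) / (twists X).card / 2) atTop (𝓝 0) := by
    have h3 := twists_growth.const_mul (C / 2)
    rw [mul_zero] at h3
    refine squeeze_zero_norm' ?_ h3
    filter_upwards [eventually_ge_atTop 1] with X hX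
    rw [Real.norm_eq_abs, abs_div, abs_div, abs_of_nonneg (Nat.cast_nonneg (α := ℝ) _), abs_of_pos (by norm_num : (0 : ℝ) < 2)]
    have h4 := h X hX
    have h5 : (0 : ℝ) ≤ (twists X).card := Nat.cast_nonneg _
    have e1 : C / 2 * (Real.sqrt X / (twists X).card) = (C * Real.sqrt X) / (twists X).card / 2 := by ring
    rw [e1]
    gcongr
  have h3 : Tendsto (fun X : ℕ => (proportion X fun d => Even (m d)) - 1 / 2) atTop (𝓝 0) :=
    h2.congr' (h1.mono fun X hX => hX.symm)
  have h4 := h3.add_const (1 / 2 : ℝ)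
  rw [zero_add] at h4
  refine h4.congr fun X => ?_
  ring

theorem prop_congr2 (X : ℕ) {P Q : ℤ → Prop} (h : ∀ d : ℤ, d ≠ 0 → Squarefree d → (P d ↔ Q d)) :
    proportion X P = proportion X Q := by
  classical
  unfold proportion
  congr 2
  refine congrArg Finset.card (Finset.filter_congr fun d hd => ?_)
  unfold twists at hd
  have := (Finset.mem_filter.1 hd).2
  exact h d this.1 this.2

theorem prop_mono (X : ℕ) {P Q : ℤ → Prop} (h : ∀ d, P d → Q d) : proportion X P ≤ proportion X Q := by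
  classical
  unfold proportion
  gcongr
  exact h _

theorem prop_nonneg (X : ℕ) (P : ℤ → Prop) : 0 ≤ proportion X P := by
  unfold proportion
  positivity

theorem prop_true : ∀ᶠ X : ℕ in atTop, proportion X (fun _ => True) = 1 := by
  classical
  filter_upwards [twists_ne] with X hX
  have h2 : ((twists X).card : ℝ) ≠ 0 := by
    have := hX.card_pos
    positivity
  have e : ∀ s : Finset ℤ, ∀ i : DecidablePred (fun _ : ℤ => True), @Finset.filter ℤ (fun _ => True) i s = s := by
    intro s i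
    ext x
    simp
  unfold proportion
  simp only [e]
  exact div_self h2

/-- with the parity, Goldfeld's conjecture is `m ≤ 1` for almost all twists -/
theorem gold_one {m : ℤ → ℕ} (he : Tendsto (fun X => proportion X fun d => Even (m d)) atTop (𝓝 (1 / 2))) :
    (Tendsto (fun X => proportion X fun d => m d = 0) atTop (𝓝 (1 / 2)) ∧
      Tendsto (fun X => proportion X fun d => m d = 1) atTop (𝓝 (1 / 2))) ↔
    Tendsto (fun X => proportion X fun d => m d ≤ 1) atTop (𝓝 1) := by
  have h01 : ∀ X, (proportion X fun d => m d ≤ 1) = (proportion X fun d => m d = 0) + proportion X fun d => m d = 1 := by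
    intro X
    rw [← prop_add X (P := fun d => m d = 0) (Q := fun d => m d = 1) (fun d h => by omega)]
    exact prop_congr X fun d => by omega
  constructor
  · rintro ⟨h1, h2⟩
    have h3 := h1.add h2
    have e : (1 / 2 + 1 / 2 : ℝ) = 1 := by norm_num
    rw [e] at h3
    exact h3.congr fun X => (h01 X).symm
  · intro h
    have hA : ∀ X, (proportion X fun d => Even (m d)) =
        (proportion X fun d => m d = 0) + proportion X fun d => Even (m d) ∧ 2 ≤ m d := by
      intro X
      rw [← prop_add X (P := fun d => m d = 0) (Q := fun d => Even (m d) ∧ 2 ≤ m d) (fun d h => by omega)]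
      refine prop_congr X fun d => ?_
      constructor
      · intro h1
        rcases Nat.lt_or_ge (m d) 2 with h2 | h2
        · left
          interval_cases hm : m d
          · rfl
          · exact absurd h1 (by decide)
        · exact Or.inr ⟨h1, h2⟩
      · rintro (h1 | h1)
        · rw [h1]
          decide
        · exact h1.1
    have hB : ∀ᶠ X : ℕ in atTop, (proportion X fun d => Even (m d) ∧ 2 ≤ m d) ≤ 1 - proportion X fun d => m d ≤ 1 := by
      filter_upwards [prop_true] with X hX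
      have h2 := prop_add X (P := fun d => m d ≤ 1) (Q := fun d => Even (m d) ∧ 2 ≤ m d) (fun d h => by omega)
      have h3 : proportion X (fun d => m d ≤ 1 ∨ (Even (m d) ∧ 2 ≤ m d)) ≤ proportion X (fun _ => True) :=
        prop_mono X fun d _ => trivial
      rw [hX, h2] at h3
      linarith
    have hC : Tendsto (fun X => proportion X fun d => Even (m d) ∧ 2 ≤ m d) atTop (𝓝 0) := by
      have h2 : Tendsto (fun X : ℕ => 1 - proportion X fun d => m d ≤ 1) atTop (𝓝 (1 - 1)) := h.const_sub 1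
      rw [sub_self] at h2
      exact squeeze_zero' (Eventually.of_forall fun X => prop_nonneg X _) hB h2
    have h0 : Tendsto (fun X => proportion X fun d => m d = 0) atTop (𝓝 (1 / 2)) := by
      have h2 := he.sub hC
      rw [sub_zero] at h2
      refine h2.congr fun X => ?_
      rw [hA X]
      ring
    refine ⟨h0, ?_⟩
    have h2 := h.sub h0
    have e : (1 - 1 / 2 : ℝ) = 1 / 2 := by norm_num
    rw [e] at h2
    refine h2.congr fun X => ?_
    rw [h01 X]
    ring

/-- **The normal law; Goldfeld's conjecture for one curve as an interchange of limits; unconditional results for the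
curves `y² = x³ + A x`.** -/
theorem result :
    -- absolute convergence
    (∀ (A B : ℤ) (γ : ℝ) (d : ℤ) (T : ℝ), 0 < T → Summable fun p : Nat.Primes => open Classical in
      if Good (A * d ^ 2) (B * d ^ 3) p then |weight γ (Real.log (p : ℕ) / T) *
        Real.log (((points (A * d ^ 2) (B * d ^ 3) p : ℝ) + 1) / (p : ℕ))| else 0) ∧
    -- I. all curves
    (∀ A B : ℤ, 4 * A ^ 3 + 27 * B ^ 2 ≠ 0 → ∀ F₂ : ℂ → ℂ, IsSquareSeries A B F₂ → MeromorphicAt F₂ 1 →
      meromorphicOrderAt F₂ 1 = ((1 : ℤ) : WithTop ℤ) → ∀ γ : ℝ, Real.pi / 2 < γ →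
      -- A. the normal law
      (∀ v : ℝ, FirstX (fun X T => proportion X fun d => (S A B γ T d - 1 / 2 * Real.log T) / √(Real.log T) ≤ v) (Phi v)) ∧
      Phi 0 = 1 / 2 ∧
      (∀ (ζ : ℂ) (ε : ℝ), 0 < ε → ∀ᶠ T : ℝ in atTop, ∀ᶠ X : ℕ in atTop,
        ‖(∑ d ∈ twists X, Complex.exp (ζ * (((S A B γ T d - 1 / 2 * Real.log T) / √(Real.log T) : ℝ) : ℂ))) /
          (twists X).card - Complex.exp (ζ ^ 2 / 2)‖ < ε) ∧
      -- B. the levels
      (∀ c : ℝ, (c < 1 / 2 → FirstX (level A B γ c) 0) ∧ (c = 1 / 2 → FirstX (level A B γ c) (1 / 2)) ∧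
        (1 / 2 < c → FirstX (level A B γ c) 1)) ∧
      -- C. the analytic ranks
      ∀ L : ℤ → ℂ → ℂ,
        (∀ d : ℤ, d ≠ 0 → Squarefree d → IsLSeries (A * d ^ 2) (B * d ^ 3) (L d) ∧ AnalyticAt ℂ (L d) 1 ∧
          ∀ x : ℝ, 1 ≤ x → x ≤ 3 / 2 → MeromorphicAt (L d) (x : ℂ)) →
        ∃ m : ℤ → ℕ,
          (∀ d : ℤ, d ≠ 0 → Squarefree d → analyticOrderAt (L d) 1 = m d ∧
            Tendsto (fun T : ℝ => S A B γ T d / Real.log T) atTop (𝓝 (m d : ℝ))) ∧
          (∀ c : ℝ, (∀ k : ℕ, (k : ℝ) ≠ c) → ∀ X : ℕ,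
            Tendsto (level A B γ c X) atTop (𝓝 (proportion X fun d => (m d : ℝ) ≤ c))) ∧
          -- D. rank `0`; ranks `0` and `1`
          (Tendsto (fun X => proportion X fun d => m d = 0) atTop (𝓝 (1 / 2)) ↔ FirstT (level A B γ (1 / 2)) (1 / 2)) ∧
          (∀ c : ℝ, 1 < c → c < 2 →
            (Tendsto (fun X => proportion X fun d => m d ≤ 1) atTop (𝓝 1) ↔ FirstT (level A B γ c) 1)) ∧
          -- E. Goldfeld's conjecture for `E`
          (∀ c : ℝ, 1 < c → c < 2 →
            ((Tendsto (fun X => proportion X fun d => m d = 0) atTop (𝓝 (1 / 2)) ∧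
              Tendsto (fun X => proportion X fun d => m d = 1) atTop (𝓝 (1 / 2))) ↔
            (FirstT (level A B γ (1 / 2)) (1 / 2) ∧ FirstT (level A B γ c) 1)) ∧
            (FirstX (level A B γ (1 / 2)) (1 / 2) ∧ FirstX (level A B γ c) 1))) ∧
    -- II. the curves `y² = x³ + A x`: there is no hypothesis
    ∀ A : ℤ, A ≠ 0 → ∃ L : ℤ → ℂ → ℂ,
      -- the `L`-series of the twists are entire
      (∀ d : ℤ, d ≠ 0 → Squarefree d → Differentiable ℂ (L d) ∧ IsLSeries (A * d ^ 2) (0 * d ^ 3) (L d)) ∧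
      ∃ m : ℤ → ℕ,
        (∀ d : ℤ, d ≠ 0 → Squarefree d → analyticOrderAt (L d) 1 = m d) ∧
        -- half of the analytic ranks are even
        Tendsto (fun X => proportion X fun d => Even (m d)) atTop (𝓝 (1 / 2)) ∧
        ∀ γ : ℝ, Real.pi / 2 < γ →
          -- A. the normal law
          (∀ v : ℝ, FirstX (fun X T => proportion X fun d =>
            (S A 0 γ T d - 1 / 2 * Real.log T) / √(Real.log T) ≤ v) (Phi v)) ∧
          (∀ (ζ : ℂ) (ε : ℝ), 0 < ε → ∀ᶠ T : ℝ in atTop, ∀ᶠ X : ℕ in atTop,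
            ‖(∑ d ∈ twists X, Complex.exp (ζ * (((S A 0 γ T d - 1 / 2 * Real.log T) / √(Real.log T) : ℝ) : ℂ))) /
              (twists X).card - Complex.exp (ζ ^ 2 / 2)‖ < ε) ∧
          -- B. the levels
          (∀ c : ℝ, (c < 1 / 2 → FirstX (level A 0 γ c) 0) ∧ (c = 1 / 2 → FirstX (level A 0 γ c) (1 / 2)) ∧
            (1 / 2 < c → FirstX (level A 0 γ c) 1)) ∧
          -- C. the analytic ranks
          (∀ d : ℤ, d ≠ 0 → Squarefree d →
            Tendsto (fun T : ℝ => S A 0 γ T d / Real.log T) atTop (𝓝 (m d : ℝ))) ∧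
          (∀ c : ℝ, (∀ k : ℕ, (k : ℝ) ≠ c) → ∀ X : ℕ,
            Tendsto (level A 0 γ c X) atTop (𝓝 (proportion X fun d => (m d : ℝ) ≤ c))) ∧
          -- D. rank `0`
          (Tendsto (fun X => proportion X fun d => m d = 0) atTop (𝓝 (1 / 2)) ↔
            FirstT (level A 0 γ (1 / 2)) (1 / 2)) ∧
          -- E. Goldfeld's conjecture: one level
          (∀ c : ℝ, 1 < c → c < 2 →
            ((Tendsto (fun X => proportion X fun d => m d = 0) atTop (𝓝 (1 / 2)) ∧
              Tendsto (fun X => proportion X fun d => m d = 1) atTop (𝓝 (1 / 2))) ↔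
            FirstT (level A 0 γ c) 1) ∧
            FirstX (level A 0 γ c) 1) := by
  refine ⟨abs_conv, fun A B hAB F₂ hF hm hn γ hγ => (general A B hAB F₂ hF hm hn γ hγ).2, fun A hA => ?_⟩
  obtain ⟨L, hL, C, hC⟩ := l_series hA
  obtain ⟨F₂, hF₂, hm, hn⟩ := sq_series hA
  have hA3 : 4 * A ^ 3 + 27 * (0 : ℤ) ^ 2 ≠ 0 := by
    have e : 4 * A ^ 3 + 27 * (0 : ℤ) ^ 2 = 4 * A ^ 3 := by ring
    rw [e]
    exact mul_ne_zero (by norm_num) (pow_ne_zero _ hA)
  have hG := fun (γ : ℝ) (hγ : Real.pi / 2 < γ) => general A 0 hA3 F₂ hF₂ hm hn γ hγ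
  have hL' : ∀ d : ℤ, d ≠ 0 → Squarefree d → IsLSeries (A * d ^ 2) (0 * d ^ 3) (L d) ∧ AnalyticAt ℂ (L d) 1 ∧
      ∀ x : ℝ, 1 ≤ x → x ≤ 3 / 2 → MeromorphicAt (L d) (x : ℂ) := fun d h0 hd =>
    ⟨(hL d h0 hd).2, (hL d h0 hd).1.analyticAt 1, fun x _ _ => ((hL d h0 hd).1.analyticAt x).meromorphicAt⟩
  set m : ℤ → ℕ := fun d => (analyticOrderAt (L d) 1).toNat with hmd
  have hme : Tendsto (fun X => proportion X fun d => Even (m d)) atTop (𝓝 (1 / 2)) := even_lim hC
  have hpi : Real.pi / 2 < 2 := by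
    have := Real.pi_lt_four
    linarith
  refine ⟨L, hL, m, ?_, hme, ?_⟩
  · intro d h0 hd
    obtain ⟨-, -, -, -, -, h⟩ := hG 2 hpi
    obtain ⟨m', hm', -⟩ := h L hL'
    rw [hmd]
    simp only
    rw [(hm' d h0 hd).1]
    rfl
  · intro γ hγ
    obtain ⟨-, h2, -, h4, h5, h6⟩ := hG γ hγ
    obtain ⟨m', k1, k2, k3, k4, -⟩ := h6 L hL'
    have hmm : ∀ d : ℤ, d ≠ 0 → Squarefree d → m d = m' d := by
      intro d h0 hd
      rw [hmd]
      simp only
      rw [(k1 d h0 hd).1]
      rfl
    have hp : ∀ (Q : ℕ → Prop) (X : ℕ), (proportion X fun d => Q (m d)) = proportion X fun d => Q (m' d) :=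
      fun Q X => prop_congr2 X fun d h0 hd => by rw [hmm d h0 hd]
    refine ⟨h2, h4, h5, fun d h0 hd => ?_, fun c hc X => ?_, ?_, fun c hc hc' => ⟨?_, ?_⟩⟩
    · rw [hmm d h0 hd]
      exact (k1 d h0 hd).2
    · rw [hp (fun k => (k : ℝ) ≤ c) X]
      exact k2 c hc X
    · simp only [hp (fun k => k = 0)]
      exact k3
    · rw [gold_one hme]
      simp only [hp (fun k => k ≤ 1)]
      exact k4 c hc hc'
    · exact (h5 c).2.2 (by linarith)

end Pool.Agent.Results.MP_03e5d0_nt.NormalLawMedian
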