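import Pool.Agent.X278.AV.Gold
import Pool.Agent.X278.AV.CgE

/-!
# Goldfeld's conjecture and the interchange of two limits

`E : y² = x³ + A x + B` is an elliptic curve over `ℚ`, `E^d : y² = x³ + A d² x + B d³` its quadratic twists. For fixed
`γ > π/2` let

`S_d(T) = ∑_{p ∤ 6 d (4 A³ + 27 B²)} log(#E^d(𝔽_p) / p) · exp(iγ u) / Γ(1 + u)`, `u = log p / T`,

an absolutely convergent sum over the primes: the logarithm of the original product of Birch and Swinnerton-Dyer with a
smooth rotated weight in place of the cut-off `log p ≤ T`. For every `d`, `Re S_d(T) / log T` tends to the analytic rank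
of `E^d` as `T → ∞`; nothing is assumed on zeros. Let `R(X, T)` be the average of `Re S_d(T) / log T` over the squarefree
`d`, `0 < |d| ≤ X`. Let `F₂` be the Euler product with the factors `((1 - α_p² p^{-s}) (1 - β_p² p^{-s}))⁻¹`, and `n` its
order at `2`; it is known that `n = 1` (`F₂ = L(Sym² E, s) / ζ(s - 1)` up to finitely many factors). We show

* for every fixed `T` the average of `S_d(T)` tends to a limit `M(T)` as `X → ∞`, and
  `M(T) = (n/2) (log T - Λ) + C + O(1/T)`; so `lim_T lim_X R(X, T) = n/2`;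
* for large `T` all but a proportion `≤ V / (δ² log T)` of the `d` satisfy `|Re S_d(T) / log T - n/2| ≤ δ`, although
  `Re S_d(T) / log T` tends to an integer for every `d`;
* `lim_T R(X, T)` is the average analytic rank up to `X`, so that this average tends to `n/2` IF AND ONLY IF the two
  limits can be interchanged;
* if `n = 1` and half of the analytic ranks are odd (both are known), the interchange of the two limits IMPLIES Goldfeld's
  conjecture for `E`: half of the twists have analytic rank `0` and half have analytic rank `1`;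
* all this is UNCONDITIONAL for the curves `y² = x³ + A x`, `A ≠ 0`: for these we prove that `F₂` is meromorphic with
  `n = 1`, that the `L`-series of the twists are entire, and that half of the analytic ranks are odd.
-/

set_option autoImplicit false

open Filter Topology Asymptotics

namespace Pool.Agent.Results.MP_03e5d0_nt.TwoOrdersOfLimits

/-- The prime `p` does not divide `6 (4 A³ + 27 B²)`. -/
def Good (A B : ℤ) (p : ℕ) : Prop := ¬ (p : ℤ) ∣ 6 * (4 * A ^ 3 + 27 * B ^ 2)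

/-- `N_p`, the number of affine points of `y² = x³ + A x + B` modulo `p`. -/
noncomputable def points (A B : ℤ) (p : ℕ) : ℕ :=
  Nat.card {P : ZMod p × ZMod p // P.2 ^ 2 = P.1 ^ 3 + (A : ZMod p) * P.1 + (B : ZMod p)}

open Classical in
/-- The term `log((N_p + 1) / p) exp(iγu) / Γ(1 + u)`, `u = log p / T`; `0` if `p` divides `6 (4 A³ + 27 B²)`. -/
noncomputable def term (A B : ℤ) (γ T : ℝ) (p : Nat.Primes) : ℂ :=
  if Good A B p then
    Real.log (((points A B p : ℝ) + 1) / (p : ℕ)) *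
      (Complex.exp ((γ * (Real.log (p : ℕ) / T) : ℝ) * Complex.I) /
        (Real.Gamma (1 + Real.log (p : ℕ) / T) : ℝ))
  else 0

/-- `S_d(T)`, the sum for the twist `E^d : y² = x³ + A d² x + B d³`. -/
noncomputable def S (A B : ℤ) (γ T : ℝ) (d : ℤ) : ℂ := ∑' p, term (A * d ^ 2) (B * d ^ 3) γ T p

/-- The squarefree integers `d ≠ 0` with `|d| ≤ X`. -/
noncomputable def twists (X : ℕ) : Finset ℤ :=
  open Classical in (Finset.Icc (-(X : ℤ)) X).filter fun d => d ≠ 0 ∧ Squarefree d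

/-- The average of a function over the squarefree integers `d ≠ 0` with `|d| ≤ X`. -/
noncomputable def average (X : ℕ) (f : ℤ → ℝ) : ℝ := (∑ d ∈ twists X, f d) / (twists X).card

/-- `R(X, T)`, the average of `Re S_d(T) / log T`. -/
noncomputable def R (A B : ℤ) (γ : ℝ) (X : ℕ) (T : ℝ) : ℝ := average X fun d => (S A B γ T d).re / Real.log T

/-- The two iterated limits agree: `lim_X lim_T R(X, T) = lim_T lim_X R(X, T)`. -/
def LimitsCommute (R : ℕ → ℝ → ℝ) : Prop :=
  Tendsto (fun X : ℕ => limUnder atTop (R X)) atTop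
    (𝓝 (limUnder atTop fun T : ℝ => limUnder atTop fun X : ℕ => R X T))

/-- The proportion of the squarefree `d ≠ 0`, `|d| ≤ X`, with a property. -/
noncomputable def proportion (X : ℕ) (P : ℤ → Prop) : ℝ :=
  open Classical in (((twists X).filter P).card : ℝ) / (twists X).card

open Classical in
/-- `F` is the incomplete `L`-series of `y² = x³ + A x + B` for `Re s > 3/2`. -/
def IsLSeries (A B : ℤ) (F : ℂ → ℂ) : Prop :=
  ∀ s : ℂ, 3 / 2 < s.re → HasProd (fun p : Nat.Primes => if Good A B p then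
    (1 - (((p : ℕ) : ℂ) - points A B p) * ((p : ℕ) : ℂ) ^ (-s) + ((p : ℕ) : ℂ) ^ (1 - 2 * s))⁻¹ else 1) (F s)

open Classical in
/-- `F₂` is the product of the `(1 - (a_p² - 2 p) p^{-s} + p^{2-2s})⁻¹`, `p ∤ 6 (4 A³ + 27 B²)`, for `Re s > 2`, where
`a_p = p - N_p`. -/
def IsSquareSeries (A B : ℤ) (F₂ : ℂ → ℂ) : Prop :=
  ∀ s : ℂ, 2 < s.re → HasProd (fun p : Nat.Primes => if Good A B p then
    (1 - ((((p : ℕ) : ℂ) - points A B p) ^ 2 - 2 * (p : ℕ)) * ((p : ℕ) : ℂ) ^ (-s) +
      ((p : ℕ) : ℂ) ^ (2 - 2 * s))⁻¹ else 1) (F₂ s)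

/-- The constant `Λ(γ) = ∫_0^∞ (e^{-t} - e^{iγt} / Γ(1 + t)) dt / t`. -/
noncomputable def Lambda (γ : ℝ) : ℂ := ∫ t in Set.Ioi (0 : ℝ),
  (Complex.exp (-(t : ℂ)) - Complex.exp ((γ * t : ℝ) * Complex.I) * ((Real.Gamma (1 + t))⁻¹ : ℝ)) / t

open Pool.Agent.X278.AV Pool.Agent.X278.OP

theorem good_iff (A B : ℤ) (p : ℕ) : Good A B p ↔ GoodQ A B p := by
  unfold Good GoodQ
  rw [← ZMod.intCast_zmod_eq_zero_iff_dvd]
  push_cast
  rfl

theorem term_eq (A B : ℤ) (γ T : ℝ) (p : Nat.Primes) :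
    term A B γ T p = ((ff (A : ZMod p) (B : ZMod p) : ℝ) : ℂ) * Wt γ (Real.log (p : ℕ) / T) := by
  unfold term ff
  by_cases h : Good A B p
  · have h' : ¬ ((6 : ZMod p) * (4 * (A : ZMod p) ^ 3 + 27 * (B : ZMod p) ^ 2) = 0) := (good_iff A B p).1 h
    rw [if_pos h, if_neg h', ZMod.card]
    unfold Wt Pool.Agent.W189.ML.om
    rw [Complex.ofReal_inv, ← div_eq_mul_inv]
    rfl
  · have h' : (6 : ZMod p) * (4 * (A : ZMod p) ^ 3 + 27 * (B : ZMod p) ^ 2) = 0 := by
      by_contra h2
      exact h ((good_iff A B p).2 h2)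
    rw [if_neg h, if_pos h', Complex.ofReal_zero, zero_mul]

theorem S_eq (A B : ℤ) (x : Fin 1 → ℤ) (γ T : ℝ) : S A B γ T (x 0) = SS (fG A B) γ T x := by
  unfold S SS
  refine tsum_congr fun p => ?_
  rw [term_eq]
  unfold fG red
  push_cast
  rfl

theorem S_eq' (A B d : ℤ) (γ T : ℝ) : S A B γ T d = SQ (A * d ^ 2) (B * d ^ 3) γ T := by
  unfold S SQ
  exact tsum_congr fun p => term_eq _ _ γ T p

theorem twists_eq (X : ℕ) : twists X = (Fam eG ZG (aG X)).map (Equiv.funUnique (Fin 1) ℤ).toEmbedding := by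
  classical
  ext d
  rw [Finset.mem_map_equiv]
  unfold twists Fam
  rw [Finset.mem_filter, Finset.mem_filter, mem_Box, Finset.mem_Icc]
  have e0 : (Equiv.funUnique (Fin 1) ℤ).symm d 0 = d := rfl
  have h1 : (∀ j, |(Equiv.funUnique (Fin 1) ℤ).symm d j| ≤ (aG X j : ℤ)) ↔ |d| ≤ X := by
    rw [Fin.forall_fin_one, e0]
    rfl
  have h2 : Pool.Agent.X278.AV.Min eG ((Equiv.funUnique (Fin 1) ℤ).symm d) ↔
      (∀ p : ℕ, p.Prime → ¬ ((p : ℤ) ^ 2 ∣ d)) := by
    unfold Pool.Agent.X278.AV.Min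
    refine forall_congr' fun p => forall_congr' fun _ => not_congr ?_
    rw [Fin.forall_fin_one, e0]
    rfl
  have h3 : ZG ((Equiv.funUnique (Fin 1) ℤ).symm d) ↔ d = 0 := Iff.rfl
  have h4 : Squarefree d ↔ (∀ p : ℕ, p.Prime → ¬ ((p : ℤ) ^ 2 ∣ d)) := by
    rw [← Int.squarefree_natAbs, Nat.squarefree_iff_prime_squarefree]
    refine forall_congr' fun p => forall_congr' fun _ => not_congr ?_
    rw [← _root_.pow_two, ← Int.natCast_dvd_natCast, Int.dvd_natAbs]
    push_cast
    rfl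
  rw [h1, h2, h3, h4, abs_le]
  tauto

theorem card_eq (X : ℕ) : (twists X).card = (Fam eG ZG (aG X)).card := by
  rw [twists_eq, Finset.card_map]

theorem twists_ne : ∀ᶠ X in atTop, (twists X).Nonempty := by
  filter_upwards [fam_ne dataG] with X hX
  rw [← Finset.card_pos, card_eq]
  exact hX.card_pos

/-- half of the ranks odd and the average `1/2`: half zero, half one -/
theorem zero_one {m : ℤ → ℤ} (h0 : ∀ d : ℤ, d ≠ 0 → Squarefree d → 0 ≤ m d)
    (ho : Tendsto (fun X => proportion X fun d => Odd (m d)) atTop (𝓝 (1 / 2)))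
    (ha : Tendsto (fun X : ℕ => average X fun d => m d) atTop (𝓝 (1 / 2))) :
    Tendsto (fun X => proportion X fun d => m d = 0) atTop (𝓝 (1 / 2)) ∧
    Tendsto (fun X => proportion X fun d => m d = 1) atTop (𝓝 (1 / 2)) := by
  classical
  set o : ℕ → ℝ := fun X => proportion X fun d => Odd (m d) with hod
  set a : ℕ → ℝ := fun X => average X fun d => m d with had
  have key : ∀ᶠ X in atTop,
      (o X - (a X - o X) ≤ proportion X (fun d => m d = 1) ∧ proportion X (fun d => m d = 1) ≤ o X) ∧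
      (1 - o X - (a X - o X) ≤ proportion X (fun d => m d = 0) ∧ proportion X (fun d => m d = 0) ≤ 1 - o X) := by
    filter_upwards [twists_ne] with X hX
    have hc : (0 : ℝ) < (twists X).card := by exact_mod_cast hX.card_pos
    have hmem : ∀ d ∈ twists X, 0 ≤ m d := by
      intro d hd
      unfold twists at hd
      rw [Finset.mem_filter] at hd
      exact h0 d hd.2.1 hd.2.2
    -- indicator sums
    have hp : ∀ P : ℤ → Prop, proportion X P = (∑ d ∈ twists X, if P d then (1 : ℝ) else 0) / (twists X).card := by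
      intro P
      unfold proportion
      congr 1
      rw [Finset.sum_boole]
    have e1 : 1 = (∑ _d ∈ twists X, (1 : ℝ)) / (twists X).card := by
      rw [Finset.sum_const, nsmul_eq_mul, mul_one, div_self hc.ne']
    have ea : a X = (∑ d ∈ twists X, (m d : ℝ)) / (twists X).card := rfl
    have eo : o X = (∑ d ∈ twists X, if Odd (m d) then (1 : ℝ) else 0) / (twists X).card := by
      have h5 := hp fun d => Odd (m d)
      simp only [hod]
      rw [h5]
      congr 1
      refine Finset.sum_congr rfl fun d _ => ?_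
      by_cases h : Odd (m d)
      · rw [if_pos h, if_pos h]
      · rw [if_neg h, if_neg h]
    rw [hp, hp, ea, eo]
    refine ⟨⟨?_, ?_⟩, ⟨?_, ?_⟩⟩
    · rw [← sub_div, ← sub_div]
      apply div_le_div_of_nonneg_right _ hc.le
      rw [← Finset.sum_sub_distrib, ← Finset.sum_sub_distrib]
      refine Finset.sum_le_sum fun d hd => ?_
      have := hmem d hd
      obtain ⟨k, hk⟩ := Int.eq_ofNat_of_zero_le this
      rw [hk]
      rcases Nat.lt_or_ge k 2 with h | h
      · interval_cases k <;> norm_num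
      · have hk2 : (2 : ℝ) ≤ k := by exact_mod_cast h
        have h3 : ¬ ((k : ℤ) = 1) := by omega
        rw [if_neg h3]
        split_ifs <;> push_cast <;> linarith
    · apply div_le_div_of_nonneg_right _ hc.le
      refine Finset.sum_le_sum fun d hd => ?_
      by_cases h : m d = 1
      · rw [if_pos h, if_pos (by rw [h]; exact odd_one)]
      · rw [if_neg h]
        split_ifs <;> norm_num
    · nth_rewrite 1 [e1]
      rw [← sub_div, ← sub_div, ← sub_div]
      apply div_le_div_of_nonneg_right _ hc.le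
      rw [← Finset.sum_sub_distrib, ← Finset.sum_sub_distrib, ← Finset.sum_sub_distrib]
      refine Finset.sum_le_sum fun d hd => ?_
      have := hmem d hd
      obtain ⟨k, hk⟩ := Int.eq_ofNat_of_zero_le this
      rw [hk]
      rcases Nat.lt_or_ge k 2 with h | h
      · interval_cases k <;> norm_num
      · have hk2 : (2 : ℝ) ≤ k := by exact_mod_cast h
        have h3 : ¬ ((k : ℤ) = 0) := by omega
        rw [if_neg h3]
        split_ifs <;> push_cast <;> linarith
    · have e2 : 1 - (∑ d ∈ twists X, if Odd (m d) then (1 : ℝ) else 0) / (twists X).card =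
          (∑ _d ∈ twists X, (1 : ℝ)) / (twists X).card -
            (∑ d ∈ twists X, if Odd (m d) then (1 : ℝ) else 0) / (twists X).card := by rw [← e1]
      rw [e2, ← sub_div]
      apply div_le_div_of_nonneg_right _ hc.le
      rw [← Finset.sum_sub_distrib]
      refine Finset.sum_le_sum fun d hd => ?_
      by_cases h : m d = 0
      · rw [if_pos h, if_neg (by rw [h]; decide)]
        norm_num
      · rw [if_neg h]
        split_ifs <;> norm_num
  have h1 := ha.sub ho
  have e2 : (1 / 2 : ℝ) - 1 / 2 = 0 := by norm_num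
  rw [e2] at h1
  constructor
  · refine tendsto_of_tendsto_of_tendsto_of_le_of_le' (g := fun X => 1 - o X - (a X - o X)) (h := fun X => 1 - o X)
      ?_ ?_ (key.mono fun X h => h.2.1) (key.mono fun X h => h.2.2)
    · have h2 := (ho.const_sub 1).sub h1
      have e3 : (1 : ℝ) - 1 / 2 - 0 = 1 / 2 := by norm_num
      rw [e3] at h2
      exact h2
    · have h2 := ho.const_sub 1
      have e3 : (1 : ℝ) - 1 / 2 = 1 / 2 := by norm_num
      rw [e3] at h2
      exact h2
  · refine tendsto_of_tendsto_of_tendsto_of_le_of_le' (g := fun X => o X - (a X - o X)) (h := o)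
      ?_ ho (key.mono fun X h => h.1.1) (key.mono fun X h => h.1.2)
    have h2 := ho.sub h1
    rw [sub_zero] at h2
    exact h2

theorem abs_conv (A B : ℤ) (γ : ℝ) (d : ℤ) (T : ℝ) (hT : 0 < T) :
    Summable fun p => ‖term (A * d ^ 2) (B * d ^ 3) γ T p‖ := by
  classical
  have h1 : Summable fun p : Nat.Primes => (100 / √((p : ℕ) : ℝ)) * ‖Wt γ (Real.log (p : ℕ) / T)‖ :=
    wt_sum hT (by norm_num)
  refine Summable.of_nonneg_of_le (fun _ => norm_nonneg _) (fun p => ?_) h1
  rw [term_eq, norm_mul, Complex.norm_real, Real.norm_eq_abs]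
  gcongr
  have := ff_size (a := ((A * d ^ 2 : ℤ) : ZMod p)) (b := ((B * d ^ 3 : ℤ) : ZMod p))
  rw [ZMod.card] at this
  exact this

/-- Goldfeld's conjecture and the two orders of limits. -/
theorem general (A B : ℤ) (F₂ : ℂ → ℂ) (hF₂ : IsSquareSeries A B F₂) (hm₂ : MeromorphicAt F₂ 2) (γ : ℝ)
    (hγ : Real.pi / 2 < γ) :
    -- absolute convergence
    (∀ (d : ℤ) (T : ℝ), 0 < T → Summable fun p => ‖term (A * d ^ 2) (B * d ^ 3) γ T p‖) ∧
    ∃ (n : ℤ) (M : ℝ → ℂ) (C : ℂ) (V : ℝ), meromorphicOrderAt F₂ 2 = n ∧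
      -- A. the average for fixed `T`
      (∀ T : ℝ, 0 < T →
        Tendsto (fun X : ℕ => (∑ d ∈ twists X, S A B γ T d) / (twists X).card) atTop (𝓝 (M T))) ∧
      (fun T : ℝ => M T - (n / 2 * (Real.log T - Lambda γ) + C)) =O[atTop] (fun T : ℝ => 1 / T) ∧
      -- B. almost all twists
      (∀ δ : ℝ, 0 < δ → ∀ᶠ T : ℝ in atTop, ∀ᶠ X : ℕ in atTop,
        proportion X (fun d => δ < |(S A B γ T d).re / Real.log T - n / 2|) ≤ V / (δ ^ 2 * Real.log T)) ∧
      -- C. one twist; the averages of the analytic ranks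
      ∀ L : ℤ → ℂ → ℂ,
        (∀ d : ℤ, d ≠ 0 → Squarefree d → IsLSeries (A * d ^ 2) (B * d ^ 3) (L d) ∧
          ∀ x : ℝ, 1 ≤ x → x ≤ 3 / 2 → MeromorphicAt (L d) (x : ℂ)) →
        ∃ m : ℤ → ℤ,
          (∀ d : ℤ, d ≠ 0 → Squarefree d → meromorphicOrderAt (L d) 1 = m d ∧
            Tendsto (fun T : ℝ => (S A B γ T d).re / Real.log T) atTop (𝓝 (m d : ℝ))) ∧
          (∀ X : ℕ, Tendsto (R A B γ X) atTop (𝓝 (average X fun d => m d))) ∧
          (∀ T : ℝ, 0 < T → Tendsto (fun X => R A B γ X T) atTop (𝓝 ((M T).re / Real.log T))) ∧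
          Tendsto (fun T : ℝ => (M T).re / Real.log T) atTop (𝓝 (n / 2 : ℝ)) ∧
          (Tendsto (fun X : ℕ => average X fun d => m d) atTop (𝓝 (n / 2 : ℝ)) ↔ LimitsCommute (R A B γ)) ∧
          -- D. Goldfeld's conjecture
          (n = 1 → (∀ d : ℤ, d ≠ 0 → Squarefree d → 0 ≤ m d) →
            Tendsto (fun X => proportion X fun d => Odd (m d)) atTop (𝓝 (1 / 2)) → LimitsCommute (R A B γ) →
            Tendsto (fun X => proportion X fun d => m d = 0) atTop (𝓝 (1 / 2)) ∧
            Tendsto (fun X => proportion X fun d => m d = 1) atTop (𝓝 (1 / 2))) := by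
  classical
  have W := sysG A B
  obtain ⟨n, C, hn, hC⟩ := ascG A B (F₂ := F₂) (fun s hs => by
    have h4 := hF₂ s hs
    have e1 : efQ2 A B s = fun p : Nat.Primes => if Good A B p then
        (1 - ((((p : ℕ) : ℂ) - points A B p) ^ 2 - 2 * (p : ℕ)) * ((p : ℕ) : ℂ) ^ (-s) +
          ((p : ℕ) : ℂ) ^ (2 - 2 * s))⁻¹ else 1 := by
      funext p
      unfold efQ2
      by_cases h : Good A B p
      · rw [if_pos h, if_pos ((good_iff _ _ _).1 h)]
        rfl
      · rw [if_neg h, if_neg (fun h' => h ((good_iff _ _ _).2 h'))]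
    rw [e1]
    exact h4) hm₂ hγ
  obtain ⟨V, hV⟩ := W.lln hC
  have hfirst : ∀ T : ℝ, 0 < T →
      Tendsto (fun X : ℕ => (∑ d ∈ twists X, S A B γ T d) / (twists X).card) atTop (𝓝 (AA eG (fG A B) γ T)) := by
    intro T hT
    refine (W.first γ hT).congr fun X => ?_
    unfold meanC
    rw [card_eq, twists_eq, Finset.sum_map]
    congr 1
    exact Finset.sum_congr rfl fun x _ => (S_eq A B x γ T).symm
  have hre : ∀ T : ℝ, 0 < T → Tendsto (fun X => R A B γ X T) atTop (𝓝 ((AA eG (fG A B) γ T).re / Real.log T)) := by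
    intro T hT
    have h1 := ((Complex.continuous_re.tendsto _).comp (hfirst T hT)).div_const (Real.log T)
    refine h1.congr fun X => ?_
    unfold R average
    simp only [Function.comp_apply]
    rw [← Finset.sum_div, Complex.div_natCast_re, Complex.re_sum]
    ring
  have hlim : Tendsto (fun T : ℝ => (AA eG (fG A B) γ T).re / Real.log T) atTop (𝓝 (n / 2 : ℝ)) := by
    have h1 := (Complex.continuous_re.tendsto _).comp hC.lim
    rw [Complex.ofReal_re] at h1
    refine h1.congr fun T => ?_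
    simp only [Function.comp_apply]
    rw [Complex.div_ofReal_re]
  refine ⟨fun d T hT => ?_, n, AA eG (fG A B) γ, C, V, hn, hfirst, ?_, ?_, fun L hL => ?_⟩
  · have h1 : Summable fun p : Nat.Primes => (100 / √((p : ℕ) : ℝ)) * ‖Wt γ (Real.log (p : ℕ) / T)‖ :=
      wt_sum hT (by norm_num)
    refine Summable.of_nonneg_of_le (fun _ => norm_nonneg _) (fun p => ?_) h1
    rw [term_eq, norm_mul, Complex.norm_real, Real.norm_eq_abs]
    gcongr
    have := ff_size (a := ((A * d ^ 2 : ℤ) : ZMod p)) (b := ((B * d ^ 3 : ℤ) : ZMod p))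
    rw [ZMod.card] at this
    exact this
  · unfold Asc at hC
    refine hC.congr_left fun T => ?_
    push_cast
    rfl
  · intro δ hδ
    filter_upwards [hV δ hδ] with T hT
    filter_upwards [hT, twists_ne] with X hX hne
    have hc : (0 : ℝ) < (twists X).card := by exact_mod_cast hne.card_pos
    unfold proportion
    rw [div_le_iff₀ hc]
    rw [← card_eq] at hX
    refine le_trans ?_ hX
    have h1 : ((twists X).filter fun d => δ < |(S A B γ T d).re / Real.log T - n / 2|).card ≤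
        ((Fam eG ZG (aG X)).filter fun x => δ < ‖SS (fG A B) γ T x / Real.log T - ((n / 2 : ℝ) : ℂ)‖).card := by
      rw [twists_eq, Finset.filter_map, Finset.card_map]
      refine Finset.card_le_card fun x hx => ?_
      rw [Finset.mem_filter] at hx ⊢
      refine ⟨hx.1, lt_of_lt_of_le hx.2 ?_⟩
      have e1 : (S A B γ T (x 0)).re / Real.log T - n / 2 =
          (SS (fG A B) γ T x / Real.log T - ((n / 2 : ℝ) : ℂ)).re := by
        rw [Complex.sub_re, Complex.div_ofReal_re, Complex.ofReal_re, S_eq]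
      show |(S A B γ T (x 0)).re / Real.log T - n / 2| ≤ _
      rw [e1]
      exact Complex.abs_re_le_norm _
    exact_mod_cast h1
  · have hgr : ∀ d : ℤ, d ≠ 0 → Squarefree d → ∃ m : ℤ, meromorphicOrderAt (L d) 1 = m ∧
        Tendsto (fun T : ℝ => (S A B γ T d).re / Real.log T) atTop (𝓝 (m : ℝ)) := by
      intro d hd hd2
      obtain ⟨h1, h2⟩ := hL d hd hd2
      have h3 : ∀ s : ℂ, 3 / 2 < s.re → HasProd (efQ (A * d ^ 2) (B * d ^ 3) s) (L d s) := by
        intro s hs
        have h4 := h1 s hs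
        have e1 : efQ (A * d ^ 2) (B * d ^ 3) s = fun p : Nat.Primes => if Good (A * d ^ 2) (B * d ^ 3) p then
            (1 - (((p : ℕ) : ℂ) - points (A * d ^ 2) (B * d ^ 3) p) * ((p : ℕ) : ℂ) ^ (-s) +
              ((p : ℕ) : ℂ) ^ (1 - 2 * s))⁻¹ else 1 := by
          funext p
          unfold efQ
          by_cases h : Good (A * d ^ 2) (B * d ^ 3) p
          · rw [if_pos h, if_pos ((good_iff _ _ _).1 h)]
            rfl
          · rw [if_neg h, if_neg (fun h' => h ((good_iff _ _ _).2 h'))]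
        rw [e1]
        exact h4
      obtain ⟨m, hm1, hm2⟩ := SQ_growth (A * d ^ 2) (B * d ^ 3) h3 h2 hγ
      refine ⟨m, hm1, ?_⟩
      refine hm2.lim.congr fun T => ?_
      rw [S_eq']
    choose! m hm1 hm2 using hgr
    have hX : ∀ X : ℕ, Tendsto (R A B γ X) atTop (𝓝 (average X fun d => m d)) := by
      intro X
      unfold average
      have h1 : Tendsto (fun T => ∑ d ∈ twists X, (S A B γ T d).re / Real.log T) atTop
          (𝓝 (∑ d ∈ twists X, (m d : ℝ))) :=
        tendsto_finsetSum _ fun d hd => by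
          unfold twists at hd
          rw [Finset.mem_filter] at hd
          exact hm2 d hd.2.1 hd.2.2
      exact h1.div_const _
    have hiff : Tendsto (fun X : ℕ => average X fun d => m d) atTop (𝓝 (n / 2 : ℝ)) ↔ LimitsCommute (R A B γ) := by
      unfold LimitsCommute
      have h1 : (fun X : ℕ => limUnder atTop (R A B γ X)) = fun X : ℕ => average X fun d => m d := by
        funext X
        exact (hX X).limUnder_eq
      have h2 : (limUnder atTop fun T : ℝ => limUnder atTop fun X : ℕ => R A B γ X T) = n / 2 := by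
        refine Tendsto.limUnder_eq ?_
        refine hlim.congr' ?_
        filter_upwards [eventually_gt_atTop (0 : ℝ)] with T hT
        exact (hre T hT).limUnder_eq.symm
      rw [h1, h2]
    refine ⟨m, fun d hd hd2 => ⟨hm1 d hd hd2, hm2 d hd hd2⟩, hX, hre, hlim, hiff, fun hn1 h0 ho hcom => ?_⟩
    have h1 := hiff.2 hcom
    rw [hn1, Int.cast_one] at h1
    exact zero_one h0 ho h1

/-! ### the curves `y² = x³ + A x` -/

theorem shift_order {f : ℂ → ℂ} (hm : MeromorphicAt f 1) (hn : meromorphicOrderAt f 1 = ((1 : ℤ) : WithTop ℤ)) :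
    MeromorphicAt (fun s => f (s - 1)) 2 ∧ meromorphicOrderAt (fun s => f (s - 1)) 2 = ((1 : ℤ) : WithTop ℤ) := by
  obtain ⟨g, hg, hg1, hev⟩ := (meromorphicOrderAt_eq_int_iff hm).1 hn
  have e21 : (2 : ℂ) - 1 = 1 := by norm_num
  have ha : AnalyticAt ℂ (fun s => g (s - 1)) 2 := by
    have h1 : AnalyticAt ℂ g ((fun s : ℂ => s - 1) 2) := by
      show AnalyticAt ℂ g (2 - 1)
      rw [e21]
      exact hg
    have h2 : AnalyticAt ℂ (fun s : ℂ => s - 1) 2 := by fun_prop
    exact AnalyticAt.comp (g := g) (f := fun s : ℂ => s - 1) (x := 2) h1 h2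
  have ht : Tendsto (fun z : ℂ => z - 1) (𝓝[≠] 2) (𝓝[≠] 1) := by
    refine tendsto_nhdsWithin_iff.2 ⟨?_, ?_⟩
    · have h1 : Tendsto (fun z : ℂ => z - 1) (𝓝 2) (𝓝 (2 - 1)) := (continuous_id.sub continuous_const).tendsto 2
      rw [e21] at h1
      exact h1.mono_left nhdsWithin_le_nhds
    · filter_upwards [self_mem_nhdsWithin] with z hz h
      refine hz ?_
      have h2 : z - 1 = 1 := h
      show z = 2
      linear_combination h2
  have hev' : ∀ᶠ z in 𝓝[≠] (2 : ℂ), f (z - 1) = (z - 2) ^ (1 : ℤ) • g (z - 1) := by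
    filter_upwards [ht.eventually hev] with z hz
    have e1 : z - 2 = z - 1 - 1 := by ring
    rw [e1]
    exact hz
  have hm' : MeromorphicAt (fun s => f (s - 1)) 2 := by
    have h2 : MeromorphicAt (fun z : ℂ => (z - 2) ^ (1 : ℤ) • g (z - 1)) 2 :=
      ((MeromorphicAt.id 2).sub (MeromorphicAt.const 2 2)).zpow 1 |>.smul ha.meromorphicAt
    exact h2.congr (hev'.mono fun z hz => hz.symm)
  refine ⟨hm', (meromorphicOrderAt_eq_int_iff hm').2 ⟨fun s => g (s - 1), ha, ?_, hev'⟩⟩
  show g (2 - 1) ≠ 0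
  rw [e21]
  exact hg1

theorem sq_series {A : ℤ} (hA : A ≠ 0) : ∃ F₂ : ℂ → ℂ, IsSquareSeries A 0 F₂ ∧ MeromorphicAt F₂ 2 ∧
    meromorphicOrderAt F₂ 2 = ((1 : ℤ) : WithTop ℤ) := by
  classical
  obtain ⟨F₂, h1, h2, h3⟩ := Cg.square A hA
  obtain ⟨k1, k2⟩ := shift_order h1 h2
  refine ⟨fun s => F₂ (s - 1), fun s hs => ?_, k1, k2⟩
  have hs' : 1 < (s - 1).re := by
    rw [Complex.sub_re, Complex.one_re]
    linarith
  refine (h3 (s - 1) hs').congr_fun fun p => ?_
  have hp0 : ((p : ℕ) : ℂ) ≠ 0 := Nat.cast_ne_zero.mpr p.2.ne_zero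
  by_cases h : Good A 0 p
  · have h' : ¬ (((p : ℕ) : ℤ) ∣ 6 * (4 * A ^ 3 + 27 * 0 ^ 2)) := h
    rw [if_pos h, if_pos h']
    have e0 : ((Pool.Agent.Y19.QT.ap A 0 (p : ℕ) : ℤ) : ℂ) = ((p : ℕ) : ℂ) - points A 0 p := by
      unfold points Pool.Agent.Y19.QT.ap
      push_cast
      rfl
    rw [e0]
    have e1 : ((p : ℕ) : ℂ) ^ (-(s - 1)) = ((p : ℕ) : ℂ) ^ (-s) * (p : ℕ) := by
      have e2 : -(s - 1) = -s + 1 := by ring
      rw [e2, Complex.cpow_add _ _ hp0, Complex.cpow_one]
    have e3 : ((p : ℕ) : ℂ) ^ (-(2 * (s - 1))) = ((p : ℕ) : ℂ) ^ (2 - 2 * s) := by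
      congr 1
      ring
    rw [e1, e3]
    congr 1
    field_simp
  · have h' : ¬ ¬ (((p : ℕ) : ℤ) ∣ 6 * (4 * A ^ 3 + 27 * 0 ^ 2)) := h
    rw [if_neg h, if_neg h']

theorem l_series {A : ℤ} (hA : A ≠ 0) : ∃ L : ℤ → ℂ → ℂ,
    (∀ d : ℤ, d ≠ 0 → Squarefree d → Differentiable ℂ (L d) ∧ IsLSeries (A * d ^ 2) (0 * d ^ 3) (L d)) ∧
    ∃ C : ℝ, ∀ X : ℕ, 1 ≤ X →
      |∑ d ∈ twists X, (-1 : ℝ) ^ (analyticOrderAt (L d) 1).toNat| ≤ C * Real.sqrt X := by
  classical
  obtain ⟨L, hL, C, hC⟩ := Cg.mainA A hA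
  refine ⟨L, fun d _ hd => ⟨(hL d hd).1, fun s hs => ?_⟩, C, fun X hX => ?_⟩
  · refine ((hL d hd).2 s hs).congr_fun fun p => ?_
    by_cases h : Good (A * d ^ 2) (0 * d ^ 3) p
    · have h' : ¬ (((p : ℕ) : ℤ) ∣ 6 * (4 * (A * d ^ 2) ^ 3 + 27 * (0 * d ^ 3) ^ 2)) := h
      rw [if_pos h, if_pos h']
      unfold points Pool.Agent.Y19.QT.ap
      push_cast
      rfl
    · have h' : ¬ ¬ (((p : ℕ) : ℤ) ∣ 6 * (4 * (A * d ^ 2) ^ 3 + 27 * (0 * d ^ 3) ^ 2)) := h
      rw [if_neg h, if_neg h']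
  · have e : twists X = Pool.Agent.Y19.QT.sqf X := by
      ext d
      rw [Pool.Agent.Y19.QT.mem_sqf]
      unfold twists
      rw [Finset.mem_filter, Finset.mem_Icc, abs_le]
      constructor
      · rintro ⟨h1, -, h2⟩
        exact ⟨h1, h2⟩
      · rintro ⟨h1, h2⟩
        exact ⟨h1, h2.ne_zero, h2⟩
    rw [e]
    exact hC X hX

theorem twists_growth : Tendsto (fun X : ℕ => Real.sqrt X / (twists X).card) atTop (𝓝 0) := by
  have h1 := fam_card dataG.hk dataG.he aG dataG.ha ZG dataG.zero dataG.lim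
  have hs : 2 ≤ ∑ j, eG j := by simp [eG]
  have h2 := (DD_ratio (s := ∑ j, eG j) (N := 1) hs).2
  have h3 : Tendsto (fun X : ℕ => 1 / 2 * (Real.sqrt X)⁻¹) atTop (𝓝 (1 / 2 * 0)) :=
    (tendsto_inv_atTop_zero.comp (Real.tendsto_sqrt_atTop.comp tendsto_natCast_atTop_atTop)).const_mul _
  have h4 := h3.div h1 h2
  rw [mul_zero, zero_div] at h4
  refine h4.congr' ?_
  filter_upwards [eventually_ge_atTop 1] with X hX
  have hX' : (1 : ℝ) ≤ X := by exact_mod_cast hX
  have h5 : ∏ j, (2 * (aG X j : ℝ)) = 2 * X := by simp [aG]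
  have h6 : Real.sqrt X * Real.sqrt X = X := Real.mul_self_sqrt (by linarith)
  have h7 : 0 < Real.sqrt X := Real.sqrt_pos.2 (by linarith)
  have h8 : Real.sqrt X ≠ 0 := h7.ne'
  show 1 / 2 * (Real.sqrt X)⁻¹ / (((Fam eG ZG (aG X)).card : ℝ) / ∏ j, (2 * (aG X j : ℝ))) = _
  rw [h5, card_eq]
  by_cases h9 : ((Fam eG ZG (aG X)).card : ℝ) = 0
  · rw [h9]
    simp
  · have h10 : (X : ℝ) ≠ 0 := by linarith
    field_simp
    rw [_root_.pow_two, h6]

theorem odd_lim {m : ℤ → ℕ} {C : ℝ} (h : ∀ X : ℕ, 1 ≤ X → |∑ d ∈ twists X, (-1 : ℝ) ^ (m d)| ≤ C * Real.sqrt X) :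
    Tendsto (fun X => proportion X fun d => Odd (m d)) atTop (𝓝 (1 / 2)) := by
  classical
  have hne : ∀ᶠ X : ℕ in atTop, (twists X).Nonempty := by
    filter_upwards [fam_ne dataG] with X hX
    rw [← Finset.card_pos, card_eq]
    exact hX.card_pos
  have h1 : ∀ᶠ X : ℕ in atTop, 1 / 2 - (proportion X fun d => Odd (m d)) =
      (∑ d ∈ twists X, (-1 : ℝ) ^ (m d)) / (twists X).card / 2 := by
    filter_upwards [hne] with X hX
    have h2 : ((twists X).card : ℝ) ≠ 0 := by
      have := hX.card_pos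
      positivity
    have h3 : ∑ d ∈ twists X, (-1 : ℝ) ^ (m d) =
        (twists X).card - 2 * (((twists X).filter fun d => Odd (m d)).card : ℝ) := by
      have e1 : ∀ d ∈ twists X, (-1 : ℝ) ^ (m d) = 1 - 2 * (if Odd (m d) then 1 else 0) := by
        intro d _
        by_cases he : Odd (m d)
        · rw [he.neg_one_pow, if_pos he]
          norm_num
        · rw [(Nat.not_odd_iff_even.1 he).neg_one_pow, if_neg he]
          norm_num
      rw [Finset.sum_congr rfl e1, Finset.sum_sub_distrib, ← Finset.mul_sum, Finset.sum_boole]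
      simp
    have e2 : proportion X (fun d => Odd (m d)) =
        (((twists X).filter fun d => Odd (m d)).card : ℝ) / (twists X).card := by
      unfold proportion
      congr!
    rw [e2, h3, sub_div, mul_div_assoc, div_self h2]
    ring
  have h2 : Tendsto (fun X : ℕ => (∑ d ∈ twists X, (-1 : ℝ) ^ (m d)) / (twists X).card / 2) atTop (𝓝 0) := by
    have h3 := twists_growth.const_mul (C / 2)
    rw [mul_zero] at h3
    refine squeeze_zero_norm' ?_ h3
    filter_upwards [eventually_ge_atTop 1] with X hX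
    rw [Real.norm_eq_abs, abs_div, abs_div, abs_of_nonneg (Nat.cast_nonneg (α := ℝ) _), abs_of_pos (by norm_num : (0 : ℝ) < 2)]
    have h4 := h X hX
    have h5 : (0 : ℝ) ≤ (twists X).card := Nat.cast_nonneg _
    have e1 : C / 2 * (Real.sqrt X / (twists X).card) = (C * Real.sqrt X) / (twists X).card / 2 := by ring
    rw [e1]
    gcongr
  have h3 : Tendsto (fun X : ℕ => 1 / 2 - (proportion X fun d => Odd (m d))) atTop (𝓝 0) :=
    h2.congr' (h1.mono fun X hX => hX.symm)
  have h4 := h3.const_sub (1 / 2 : ℝ)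
  rw [sub_zero] at h4
  refine h4.congr fun X => ?_
  ring

theorem prop_congr2 (X : ℕ) {P Q : ℤ → Prop} (h : ∀ d : ℤ, d ≠ 0 → Squarefree d → (P d ↔ Q d)) :
    proportion X P = proportion X Q := by
  classical
  unfold proportion
  congr 2
  refine congrArg Finset.card (Finset.filter_congr fun d hd => ?_)
  unfold twists at hd
  have := (Finset.mem_filter.1 hd).2
  exact h d this.1 this.2

theorem avg_congr2 (X : ℕ) {f g : ℤ → ℝ} (h : ∀ d : ℤ, d ≠ 0 → Squarefree d → f d = g d) :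
    average X f = average X g := by
  classical
  unfold average
  congr 1
  refine Finset.sum_congr rfl fun d hd => ?_
  unfold twists at hd
  have := (Finset.mem_filter.1 hd).2
  exact h d this.1 this.2

/-- **Goldfeld's conjecture and the interchange of two limits; unconditional results for the curves `y² = x³ + A x`.** -/
theorem result :
    -- absolute convergence
    (∀ (A B : ℤ) (γ : ℝ) (d : ℤ) (T : ℝ), 0 < T → Summable fun p => ‖term (A * d ^ 2) (B * d ^ 3) γ T p‖) ∧
    -- I. all curves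
    (∀ (A B : ℤ) (F₂ : ℂ → ℂ), IsSquareSeries A B F₂ → MeromorphicAt F₂ 2 → ∀ γ : ℝ, Real.pi / 2 < γ →
      ∃ (n : ℤ) (M : ℝ → ℂ) (C : ℂ) (V : ℝ), meromorphicOrderAt F₂ 2 = n ∧
        -- A. the average for fixed `T`
        (∀ T : ℝ, 0 < T →
          Tendsto (fun X : ℕ => (∑ d ∈ twists X, S A B γ T d) / (twists X).card) atTop (𝓝 (M T))) ∧
        (fun T : ℝ => M T - (n / 2 * (Real.log T - Lambda γ) + C)) =O[atTop] (fun T : ℝ => 1 / T) ∧
        -- B. almost all twists
        (∀ δ : ℝ, 0 < δ → ∀ᶠ T : ℝ in atTop, ∀ᶠ X : ℕ in atTop,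
          proportion X (fun d => δ < |(S A B γ T d).re / Real.log T - n / 2|) ≤ V / (δ ^ 2 * Real.log T)) ∧
        -- C. one twist; the averages of the analytic ranks
        ∀ L : ℤ → ℂ → ℂ,
          (∀ d : ℤ, d ≠ 0 → Squarefree d → IsLSeries (A * d ^ 2) (B * d ^ 3) (L d) ∧
            ∀ x : ℝ, 1 ≤ x → x ≤ 3 / 2 → MeromorphicAt (L d) (x : ℂ)) →
          ∃ m : ℤ → ℤ,
            (∀ d : ℤ, d ≠ 0 → Squarefree d → meromorphicOrderAt (L d) 1 = m d ∧
              Tendsto (fun T : ℝ => (S A B γ T d).re / Real.log T) atTop (𝓝 (m d : ℝ))) ∧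
            (∀ X : ℕ, Tendsto (R A B γ X) atTop (𝓝 (average X fun d => m d))) ∧
            (∀ T : ℝ, 0 < T → Tendsto (fun X => R A B γ X T) atTop (𝓝 ((M T).re / Real.log T))) ∧
            Tendsto (fun T : ℝ => (M T).re / Real.log T) atTop (𝓝 (n / 2 : ℝ)) ∧
            (Tendsto (fun X : ℕ => average X fun d => m d) atTop (𝓝 (n / 2 : ℝ)) ↔ LimitsCommute (R A B γ)) ∧
            -- D. Goldfeld's conjecture
            (n = 1 → (∀ d : ℤ, d ≠ 0 → Squarefree d → 0 ≤ m d) →
              Tendsto (fun X => proportion X fun d => Odd (m d)) atTop (𝓝 (1 / 2)) → LimitsCommute (R A B γ) →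
              Tendsto (fun X => proportion X fun d => m d = 0) atTop (𝓝 (1 / 2)) ∧
              Tendsto (fun X => proportion X fun d => m d = 1) atTop (𝓝 (1 / 2)))) ∧
    -- II. the curves `y² = x³ + A x`: there is no hypothesis
    ∀ A : ℤ, A ≠ 0 → ∃ L : ℤ → ℂ → ℂ,
      -- the `L`-series of the twists are entire
      (∀ d : ℤ, d ≠ 0 → Squarefree d → Differentiable ℂ (L d) ∧ IsLSeries (A * d ^ 2) (0 * d ^ 3) (L d)) ∧
      ∃ m : ℤ → ℕ,
        (∀ d : ℤ, d ≠ 0 → Squarefree d → analyticOrderAt (L d) 1 = m d) ∧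
        -- half of the analytic ranks are odd
        Tendsto (fun X => proportion X fun d => Odd (m d)) atTop (𝓝 (1 / 2)) ∧
        ∀ γ : ℝ, Real.pi / 2 < γ → ∃ (M : ℝ → ℂ) (C : ℂ) (V : ℝ),
          -- A. the average for fixed `T`
          (∀ T : ℝ, 0 < T →
            Tendsto (fun X : ℕ => (∑ d ∈ twists X, S A 0 γ T d) / (twists X).card) atTop (𝓝 (M T))) ∧
          (fun T : ℝ => M T - (1 / 2 * (Real.log T - Lambda γ) + C)) =O[atTop] (fun T : ℝ => 1 / T) ∧
          -- B. almost all twists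
          (∀ δ : ℝ, 0 < δ → ∀ᶠ T : ℝ in atTop, ∀ᶠ X : ℕ in atTop,
            proportion X (fun d => δ < |(S A 0 γ T d).re / Real.log T - 1 / 2|) ≤ V / (δ ^ 2 * Real.log T)) ∧
          -- C. one twist; the averages of the analytic ranks
          (∀ d : ℤ, d ≠ 0 → Squarefree d →
            Tendsto (fun T : ℝ => (S A 0 γ T d).re / Real.log T) atTop (𝓝 (m d : ℝ))) ∧
          (∀ X : ℕ, Tendsto (R A 0 γ X) atTop (𝓝 (average X fun d => m d))) ∧
          (∀ T : ℝ, 0 < T → Tendsto (fun X => R A 0 γ X T) atTop (𝓝 ((M T).re / Real.log T))) ∧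
          Tendsto (fun T : ℝ => (M T).re / Real.log T) atTop (𝓝 (1 / 2)) ∧
          (Tendsto (fun X : ℕ => average X fun d => m d) atTop (𝓝 (1 / 2)) ↔ LimitsCommute (R A 0 γ)) ∧
          -- D. Goldfeld's conjecture
          (LimitsCommute (R A 0 γ) →
            Tendsto (fun X => proportion X fun d => m d = 0) atTop (𝓝 (1 / 2)) ∧
            Tendsto (fun X => proportion X fun d => m d = 1) atTop (𝓝 (1 / 2))) := by
  refine ⟨abs_conv, fun A B F₂ hF hm γ hγ => (general A B F₂ hF hm γ hγ).2, fun A hA => ?_⟩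
  obtain ⟨L, hL, C, hC⟩ := l_series hA
  obtain ⟨F₂, hF₂, hm, hn⟩ := sq_series hA
  have hL' : ∀ d : ℤ, d ≠ 0 → Squarefree d → IsLSeries (A * d ^ 2) (0 * d ^ 3) (L d) ∧
      ∀ x : ℝ, 1 ≤ x → x ≤ 3 / 2 → MeromorphicAt (L d) (x : ℂ) := fun d h0 hd =>
    ⟨(hL d h0 hd).2, fun x _ _ => ((hL d h0 hd).1.analyticAt x).meromorphicAt⟩
  have hG : ∀ γ : ℝ, Real.pi / 2 < γ → ∃ (n : ℤ) (M : ℝ → ℂ) (C : ℂ) (V : ℝ), n = 1 ∧ _ := fun γ hγ => by
    obtain ⟨-, n, M, C, V, h1, h2⟩ := general A 0 F₂ hF₂ hm γ hγ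
    refine ⟨n, M, C, V, ?_, h2⟩
    rw [hn] at h1
    exact_mod_cast h1.symm
  set m : ℤ → ℕ := fun d => (analyticOrderAt (L d) 1).toNat with hmd
  have hmo : Tendsto (fun X => proportion X fun d => Odd (m d)) atTop (𝓝 (1 / 2)) := odd_lim hC
  have hord : ∀ d : ℤ, d ≠ 0 → Squarefree d → ∀ k : ℤ, meromorphicOrderAt (L d) 1 = k →
      analyticOrderAt (L d) 1 = m d ∧ k = m d := by
    intro d h0 hd k hk
    rw [((hL d h0 hd).1.analyticAt 1).meromorphicOrderAt_eq] at hk
    obtain ⟨n, hn⟩ : ∃ n : ℕ, analyticOrderAt (L d) 1 = n := by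
      by_cases h5 : analyticOrderAt (L d) 1 = ⊤
      · rw [h5, ENat.map_top] at hk
        exact absurd hk (by simp)
      · obtain ⟨n, hn⟩ := ENat.ne_top_iff_exists.1 h5
        exact ⟨n, hn.symm⟩
    have hmn : m d = n := by
      rw [hmd]
      simp only
      rw [hn]
      rfl
    rw [hn] at hk
    simp only [ENat.map_coe] at hk
    have h6 : (n : ℤ) = k := by exact_mod_cast hk
    rw [hmn]
    exact ⟨hn, h6.symm⟩
  have hpi : Real.pi / 2 < 2 := by
    have := Real.pi_lt_four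
    linarith
  refine ⟨L, hL, m, ?_, hmo, ?_⟩
  · intro d h0 hd
    obtain ⟨n, M, C, V, hn1, -, -, -, h⟩ := hG 2 hpi
    obtain ⟨m', hm', -⟩ := h L hL'
    exact (hord d h0 hd _ (hm' d h0 hd).1).1
  · intro γ hγ
    obtain ⟨n, M, C, V, hn1, h1, h2, h3, h4⟩ := hG γ hγ
    subst hn1
    obtain ⟨m', k1, k2, k3, k4, k5, k6⟩ := h4 L hL'
    have hmm : ∀ d : ℤ, d ≠ 0 → Squarefree d → m' d = m d := fun d h0 hd => (hord d h0 hd _ (k1 d h0 hd).1).2
    have hav : ∀ X : ℕ, (average X fun d => (m' d : ℝ)) = average X fun d => (m d : ℝ) := fun X =>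
      avg_congr2 X fun d h0 hd => by
        rw [hmm d h0 hd]
        push_cast
        rfl
    have hp : ∀ (Q : ℤ → Prop) (X : ℕ), (proportion X fun d => Q (m' d)) = proportion X fun d => Q (m d) :=
      fun Q X => prop_congr2 X fun d h0 hd => by rw [hmm d h0 hd]
    simp only [hav] at k2 k5
    push_cast at h2 h3 k4 k5
    refine ⟨M, C, V, h1, h2, h3, fun d h0 hd => ?_, k2, k3, k4, k5, fun hc => ?_⟩
    · have h5 := (k1 d h0 hd).2
      rw [hmm d h0 hd] at h5
      exact_mod_cast h5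
    · have hodd : Tendsto (fun X => proportion X fun d => Odd (m' d)) atTop (𝓝 (1 / 2)) := by
        refine hmo.congr fun X => ?_
        rw [hp Odd X]
        refine prop_congr2 X fun d _ _ => ?_
        exact (Int.odd_coe_nat _).symm
      obtain ⟨j1, j2⟩ := k6 rfl (fun d h0 hd => by rw [hmm d h0 hd]; positivity) hodd hc
      refine ⟨j1.congr fun X => ?_, j2.congr fun X => ?_⟩
      · rw [hp (fun k => k = 0) X]
        exact prop_congr2 X fun d _ _ => by norm_cast
      · rw [hp (fun k => k = 1) X]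
        exact prop_congr2 X fun d _ _ => by norm_cast

end Pool.Agent.Results.MP_03e5d0_nt.TwoOrdersOfLimits
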